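import Pool.Agent.Helper90.HT.Defs
import Pool.Agent.Helper90.HB.Res
import Pool.Agent.Helper90.HB.Alg
set_option autoImplicit false

/-!
The element `alphaT` is an unramified cocycle: if `t^N = 1` the hypersurface with parameter `t` is
contained in the hypersurface with parameter `1` and the multiplicities `N n_j`, and `N alphaT` is
the restriction of the element `alpha` of the latter.
-/

namespace Pool.Agent.Helper90.HT

open scoped TensorProduct WithZero
open Pool.Agent.N65.TK (Pt UQ tu Kap)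
open Pool.Agent.Helper90.HB

section functorial

variable {A B E : Type*} [CommRing A] [CommRing B] [CommRing E] {k : ℕ}

theorem FS_map_br (φ : A →+* B) (f : Pt A) (g : Fin k → Aˣ) :
    FS.map φ (br f g) = br (f.map φ) fun i => Units.map (φ : A →* B) (g i) := by
  unfold FS.map br
  exact Finsupp.mapDomain_single

theorem FS_map_map (φ : A →+* B) (ψ : B →+* E) (s : FS A k) :
    FS.map ψ (FS.map φ s) = FS.map (ψ.comp φ) s := by
  have h : (FS.map (k := k) ψ).comp (FS.map φ) = FS.map (ψ.comp φ) := by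
    refine Finsupp.lhom_ext fun p c => ?_
    have e : (Finsupp.single p c : FS A k) = c • br p.1 p.2 := by
      unfold br
      rw [Finsupp.smul_single, smul_eq_mul, mul_one]
    rw [e, map_smul, map_smul, LinearMap.comp_apply, FS_map_br, FS_map_br, FS_map_br]
    rfl
  exact congrArg (fun f : FS A k →ₗ[ℚ] FS E k => f s) h

/-- the map `A^* ⊗ ℚ → B^* ⊗ ℚ` -/
noncomputable def UQmap (φ : A →+* B) : UQ A →ₗ[ℚ] UQ B :=
  TensorProduct.AlgebraTensorModule.map (LinearMap.id : ℚ →ₗ[ℚ] ℚ)
    (MonoidHom.toAdditive (Units.map (φ : A →* B))).toIntLinearMap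

theorem UQmap_tu (φ : A →+* B) (a : Aˣ) : UQmap φ (tu a) = tu (Units.map (φ : A →* B) a) := rfl

/-- the map of the exterior powers -/
noncomputable def Lmap (φ : A →+* B) (n : ℕ) : Lam A n →ₗ[ℚ] Lam B n :=
  exteriorPower.map n (UQmap φ)

theorem Lmap_wedge (φ : A →+* B) {n : ℕ} (a : Fin n → Aˣ) :
    Lmap φ n (wedge a) = wedge fun i => Units.map (φ : A →* B) (a i) :=
  exteriorPower.map_apply_ιMulti _ _

theorem co_map (φ : A →+* B) (f : Pt A) : (f.map φ).co = Units.map (φ : A →* B) f.co := by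
  ext1
  show 1 - φ (f.1 : A) = φ (1 - (f.1 : A))
  rw [map_sub, map_one]

theorem dif_map (φ : A →+* B) (s : FS A k) :
    dif B k (FS.map φ s) = Lmap φ (k + 2) (dif A k s) := by
  have h : (dif B k).comp (FS.map φ) = (Lmap φ (k + 2)).comp (dif A k) := by
    refine Finsupp.lhom_ext fun p c => ?_
    have e : (Finsupp.single p c : FS A k) = c • br p.1 p.2 := by
      unfold br
      rw [Finsupp.smul_single, smul_eq_mul, mul_one]
    rw [e, map_smul, map_smul, LinearMap.comp_apply, LinearMap.comp_apply, FS_map_br]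
    unfold br dif
    rw [Finsupp.linearCombination_single, Finsupp.linearCombination_single, one_smul, one_smul,
      Lmap_wedge, co_map]
    congr 2
    funext i
    refine Fin.cases ?_ (fun i => ?_) i
    · rfl
    · refine Fin.cases ?_ (fun i => ?_) i
      · rfl
      · rfl
  exact congrArg (fun f : FS A k →ₗ[ℚ] Lam B (k + 2) => f s) h

end functorial

section power

variable {K : Type*} [Field K] {k r : ℕ} (C : Dat K k r)

/-- the data with the multiplicities `N n_j` -/
def pw (N : ℕ) : Dat K k r := { C with n := fun j => N * C.n j }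

variable {C}

theorem pw_admissible (hC : C.Admissible) {N : ℕ} (hN : 0 < N) : (pw C N).Admissible :=
  ⟨hC.span, hC.indep, hC.tors, fun j => Nat.mul_pos hN (hC.pos j)⟩

variable {t : Kˣ} {N : ℕ} (ht : t ^ N = 1)

include ht in
theorem proj_eqn : projT C t (pw C N).eqn = 0 := by
  have h1 : (pw C N).eqn = (∏ j, ((1 - (C.m j : LP K k)) *
      (1 - ((C.m j)⁻¹ : (LP K k)ˣ))) ^ C.n j) ^ N - 1 := by
    rw [← Finset.prod_pow]
    unfold Dat.eqn
    congr 1
    refine Finset.prod_congr rfl fun j _ => ?_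
    show _ ^ (N * C.n j) = _
    rw [mul_comm N, pow_mul]
    rfl
  have h2 : projT C t (∏ j, ((1 - (C.m j : LP K k)) *
      (1 - ((C.m j)⁻¹ : (LP K k)ˣ))) ^ C.n j) = cstT C t t := by
    have h : projT C t (eqnT C t) = 0 := Ideal.Quotient.eq_zero_iff_mem.2 (Ideal.subset_span rfl)
    unfold eqnT at h
    rw [map_sub, sub_eq_zero] at h
    exact h
  rw [h1, map_sub, map_pow, h2, map_one, ← map_pow]
  have h3 : (t : K) ^ N = 1 := by
    rw [← Units.val_pow_eq_pow_val, ht, Units.val_one]
  rw [h3, map_one, sub_self]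

/-- the restriction -/
noncomputable def psi : (pw C N).Ring →+* RingT C t :=
  Ideal.Quotient.lift (Ideal.span {(pw C N).eqn}) (projT C t) fun a ha => by
    rw [Ideal.mem_span_singleton'] at ha
    obtain ⟨b, rfl⟩ := ha
    rw [map_mul, proj_eqn ht, mul_zero]

theorem psi_mn (a : Kˣ) (v : Fin (k + 1) → ℤ) :
    Units.map (psi (C := C) ht : (pw C N).Ring →* RingT C t) ((pw C N).mn a v) = mnT C t a v :=
  rfl

theorem psi_pt (hC : C.Admissible) (hN : 0 < N) (j : Fin r) :
    (Dat.pt (pw_admissible hC hN) j).map (psi (C := C) ht) = ptT t hC j := rfl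

theorem map_alpha (hC : C.Admissible) (hN : 0 < N) :
    FS.map (psi (C := C) ht) (Dat.alpha (pw_admissible hC hN)) = (N : ℚ) • alphaT t hC := by
  unfold Dat.alpha alphaT
  rw [map_sum, Finset.smul_sum]
  refine Finset.sum_congr rfl fun j _ => ?_
  rw [map_smul, smul_smul, map_sum]
  have h1 : (((pw C N).n j : ℚ) / (∑ s, (pw C N).v j s ^ 2 : ℤ)) =
      (N : ℚ) * ((C.n j : ℚ) / (∑ s, C.v j s ^ 2 : ℤ)) := by
    have : (pw C N).n j = N * C.n j := rfl
    rw [this]
    push_cast
    rw [mul_div_assoc]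
    rfl
  rw [h1]
  congr 1
  refine Finset.sum_congr rfl fun s _ => ?_
  rw [map_smul, FS_map_br]
  rfl

theorem alphaT_eq (hC : C.Admissible) (hN : 0 < N) : alphaT t hC =
    (N : ℚ)⁻¹ • FS.map (psi (C := C) ht) (Dat.alpha (pw_admissible hC hN)) := by
  have h1 : (N : ℚ) ≠ 0 := by exact_mod_cast hN.ne'
  rw [map_alpha ht hC hN, smul_smul, inv_mul_cancel₀ h1, one_smul]

end power

section final

variable {K : Type*} [Field K] {k r : ℕ} {C : Dat K (k + 1) r} {t : Kˣ} {N : ℕ}

theorem dif_alphaT (ht : t ^ N = 1) (hN : 0 < N) (hC : C.Admissible) :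
    dif (RingT C t) (k + 1) (alphaT t hC) = 0 := by
  rw [alphaT_eq ht hC hN, map_smul, dif_map, dif_alpha _ (two_le hC), map_zero, smul_zero]

theorem bnd_alphaT (ht : t ^ N = 1) (hN : 0 < N) (hC : C.Admissible) {L : Type*} [Field L]
    (φ : RingT C t →+* L) (v : Valuation L ℤᵐ⁰) (π : Lˣ)
    (hπ : v (π : L) = WithZero.exp (-1 : ℤ)) :
    bnd v π k (FS.map φ (alphaT t hC)) = 0 := by
  rw [alphaT_eq ht hC hN, map_smul, map_smul, FS_map_map, bnd_alpha _ _ v π hπ, smul_zero]

end final

end Pool.Agent.Helper90.HT
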