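import Pool.Agent.Helper90.HT.Ex
import Pool.Agent.Helper90.HT.Alg
import Pool.Agent.Helper90.HB.Base
set_option autoImplicit false

/-!
The torus on the hypersurface with parameter `t`, and the regulator of `alphaT`.
-/

namespace Pool.Agent.Helper90.HT

open MeasureTheory Set Filter Topology Pool.Agent.TH826.MK Pool.Agent.W367.KT
open Pool.Agent.Helper90.HB
open Pool.Agent.N65.TK (Pt norm_root)

section eval

variable {K : Type*} [Field K] {k : ℕ} (σ : K →+* ℂ)

/-- `m ↦ ∏ z_s ^ (m_s)` -/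
noncomputable def chz (z : Fin (k + 1) → ℂˣ) : Multiplicative (Fin (k + 1) → ℤ) →* ℂ where
  toFun m := ((∏ s, z s ^ (m.toAdd s) : ℂˣ) : ℂ)
  map_one' := by simp
  map_mul' m m' := by
    rw [← Units.val_mul, ← Finset.prod_mul_distrib]
    congr 1
    refine Finset.prod_congr rfl fun s _ => ?_
    rw [toAdd_mul, Pi.add_apply, zpow_add]

/-- The value at the point with the coordinates `z_s`. -/
noncomputable def evz (z : Fin (k + 1) → ℂˣ) : LP K k →+* ℂ :=
  AddMonoidAlgebra.liftNCRingHom σ (chz z) fun _ _ => mul_comm _ _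

theorem evz_single (z : Fin (k + 1) → ℂˣ) (m : Fin (k + 1) → ℤ) (a : K) :
    evz σ z (AddMonoidAlgebra.single m a) = σ a * ((∏ s, z s ^ m s : ℂˣ) : ℂ) :=
  AddMonoidAlgebra.liftNCRingHom_single _ _ _ _ _

theorem evz_eq (z : Fin (k + 1) → ℂˣ) (P : LP K k) :
    evz σ z P = ∑ m ∈ P.coeff.support, σ (P.coeff m) * ((∏ s, z s ^ m s : ℂˣ) : ℂ) := by
  conv_lhs => rw [← AddMonoidAlgebra.sum_coeff_single P]
  unfold Finsupp.sum
  rw [map_sum]
  simp only [evz_single]

end eval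

section smooth

variable {d : ℕ}

theorem good_zpow {g : (Fin d → ℝ) → ℂ} (hg : Good g) (n : ℤ) : Good fun θ => g θ ^ n := by
  rcases Int.eq_nat_or_neg n with ⟨m, rfl | rfl⟩
  · simp only [zpow_natCast]
    exact good_pow hg m
  · simp only [zpow_neg, zpow_natCast]
    exact good_inv (good_pow hg m)

end smooth

section point

variable {k r : ℕ} {A : Par k r} (hA : A.Ok)

/-- the point -/
noncomputable def zu (θ : Fin (k + 1) → ℝ) (s : Fin (k + 2)) : ℂˣ :=
  Units.mk0 (A.X s (Fin.cons 0 θ)) ((hA.good_X s).ne_zero _)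

theorem zu_val (θ : Fin (k + 1) → ℝ) (s : Fin (k + 2)) :
    (zu hA θ s : ℂ) = A.X s (Fin.cons 0 θ) := rfl

theorem zu_per (θ : Fin (k + 1) → ℝ) (i : Fin (k + 1)) (s : Fin (k + 2)) :
    zu hA (θ + Pi.single i 1) s = zu hA θ s := by
  ext1
  rw [zu_val, zu_val]
  have h : (Fin.cons 0 (θ + Pi.single i 1) : Fin (k + 2) → ℝ) =
      Fin.cons 0 θ + Pi.single i.succ 1 := by
    funext j
    refine Fin.cases ?_ (fun j => ?_) j
    · simp
    · rw [Pi.add_apply, Fin.cons_succ, Fin.cons_succ, Pi.add_apply]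
      congr 1
      by_cases hj : j = i
      · subst hj
        rw [Pi.single_eq_same, Pi.single_eq_same]
      · rw [Pi.single_eq_of_ne hj, Pi.single_eq_of_ne fun e => hj (Fin.succ_injective _ e)]
  rw [h]
  exact A.per_X s i _

theorem contDiff_zu (m : Fin (k + 2) → ℤ) :
    ContDiff ℝ 2 fun θ => ((∏ s, zu hA θ s ^ m s : ℂˣ) : ℂ) := by
  have h1 : (fun θ => ((∏ s, zu hA θ s ^ m s : ℂˣ) : ℂ)) =
      fun θ => ∏ s, (fc 0 (A.X s) θ) ^ m s := by
    funext θ
    rw [Units.coe_prod]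
    refine Finset.prod_congr rfl fun s _ => ?_
    rw [Units.val_zpow_eq_zpow_val]
    rfl
  rw [h1]
  exact (good_prod Finset.univ (fun s θ => (fc 0 (A.X s) θ) ^ m s) fun s =>
    good_zpow (good_fc (hA.good_X s) 0) (m s)).smooth

theorem prod_zu (b : Fin (k + 1) → ℤ) (θ : Fin (k + 1) → ℝ) :
    ((∏ l : Fin (k + 1), zu hA θ l.succ ^ b l : ℂˣ) : ℂ) = A.ex 1 b (Fin.cons 0 θ) := by
  rw [Units.coe_prod]
  have h1 : ∀ l : Fin (k + 1), ((zu hA θ l.succ ^ b l : ℂˣ) : ℂ) =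
      Complex.exp ((b l : ℂ) * (((2 * Real.pi * θ l : ℝ) : ℂ) * Complex.I -
        ((A.h * A.q l : ℝ) : ℂ))) := by
    intro l
    rw [Units.val_zpow_eq_zpow_val, zu_val, Complex.exp_int_mul]
    congr 1
    show A.xx l (Fin.cons 0 θ) = _
    unfold Par.xx Par.ex Par.ax
    rw [one_mul, Finset.sum_eq_single l]
    · rw [Pi.single_eq_same, Int.cast_one, one_mul, Fin.cons_succ]
    · intro m _ hm
      rw [Pi.single_eq_of_ne hm]
      simp
    · simp
  rw [Finset.prod_congr rfl fun l _ => h1 l, ← Complex.exp_sum]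
  unfold Par.ex Par.ax
  rw [one_mul]
  simp only [Fin.cons_succ]

end point

section cyc

variable {K : Type*} [Field K] {k r : ℕ} (C : Dat K (k + 1) (r + 1)) (σ : K →+* ℂ)

/-- the parameters of the family -/
noncomputable def par (q : Fin (k + 2) → ℤ) (h κ : ℝ) : Par k r where
  c := fun j => σ (C.ε j.succ)
  v := fun j l => C.v j.succ l.succ
  n := fun j => C.n j.succ
  q := fun l => q l.succ
  h := h
  κ := κ

variable {C} (hS : Split C) {q : Fin (k + 2) → ℤ} {h κ : ℝ} (hA : (par C σ q h κ).Ok)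

include hS

theorem par_nn (j : Fin (r + 1)) : (par C σ q h κ).nn j = C.n j := by
  refine Fin.cases ?_ (fun j => ?_) j
  · exact hS.n_zero.symm
  · rfl

theorem par_vv (j : Fin (r + 1)) : (par C σ q h κ).vv j = C.v j := by
  refine Fin.cases ?_ (fun j => ?_) j
  · exact hS.v_zero.symm
  · funext s
    refine Fin.cases ?_ (fun l => ?_) s
    · exact (hS.v_succ j).symm
    · rfl

theorem evz_mon (θ : Fin (k + 1) → ℝ) (j : Fin (r + 1)) :
    evz σ (zu hA θ) (AddMonoidAlgebra.single (C.v j) (C.ε j : K)) =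
      (par C σ q h κ).M j (Fin.cons 0 θ) := by
  rw [evz_single]
  refine Fin.cases ?_ (fun j => ?_) j
  · rw [hS.ε_zero, hS.v_zero, Units.val_one, map_one, one_mul, Finset.prod_eq_single 0]
    · rw [Pi.single_eq_same, zpow_one]
      rfl
    · intro s _ hs
      rw [Pi.single_eq_of_ne hs, zpow_zero]
    · simp
  · rw [Fin.prod_univ_succ, hS.v_succ, zpow_zero, one_mul]
    have h1 := prod_zu hA (fun l => C.v j.succ l.succ) θ
    rw [h1]
    show _ = (par C σ q h κ).mm j (Fin.cons 0 θ)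
    unfold Par.mm Par.ex
    rw [one_mul]
    rfl

theorem evz_eqnT {t : Kˣ} (ht : Complex.exp ((κ : ℂ) * Complex.I) = -σ t)
    (θ : Fin (k + 1) → ℝ) : evz σ (zu hA θ) (eqnT C t) = 0 := by
  unfold eqnT
  rw [map_sub, sub_eq_zero, map_prod]
  have h1 : ∀ j, evz σ (zu hA θ) (((1 - (C.m j : LP K (k + 1))) *
      (1 - ((C.m j)⁻¹ : (LP K (k + 1))ˣ))) ^ C.n j) =
      ((1 - (par C σ q h κ).M j (Fin.cons 0 θ)) *
        (1 - ((par C σ q h κ).M j (Fin.cons 0 θ))⁻¹)) ^ C.n j := by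
    intro j
    have h2 : evz σ (zu hA θ) (C.m j : LP K (k + 1)) = (par C σ q h κ).M j (Fin.cons 0 θ) :=
      evz_mon σ hS hA θ j
    have h3 : evz σ (zu hA θ) (((C.m j)⁻¹ : (LP K (k + 1))ˣ) : LP K (k + 1)) =
        ((par C σ q h κ).M j (Fin.cons 0 θ))⁻¹ := by
      rw [← h2]
      refine eq_inv_of_mul_eq_one_right ?_
      rw [← map_mul, Units.mul_inv, map_one]
    rw [map_pow, map_mul, map_sub, map_sub, map_one, h2, h3]
  rw [Finset.prod_congr rfl fun j _ => h1 j, Fin.prod_univ_succ, hS.n_zero, pow_one]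
  have h4 : evz σ (zu hA θ) (AddMonoidAlgebra.single 0 (t : K)) = σ t := by
    rw [evz_single]
    simp
  rw [h4]
  have h5 := hA.eqn (Fin.cons 0 θ)
  refine Eq.trans h5 ?_
  unfold Par.TT
  rw [Fin.cons_zero, mul_zero, Real.cos_zero, mul_one]
  have h6 : (par C σ q h κ).κ = κ := rfl
  rw [h6, ht, neg_neg]

theorem evz_zero {t : Kˣ} (ht : Complex.exp ((κ : ℂ) * Complex.I) = -σ t)
    (θ : Fin (k + 1) → ℝ) (P : LP K (k + 1)) (hP : P ∈ Ideal.span {eqnT C t}) :
    evz σ (zu hA θ) P = 0 := by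
  rw [Ideal.mem_span_singleton'] at hP
  obtain ⟨Q, rfl⟩ := hP
  rw [map_mul, evz_eqnT σ hS hA ht, mul_zero]

/-- The torus on the hypersurface. -/
noncomputable def cycT {t : Kˣ} (ht : Complex.exp ((κ : ℂ) * Complex.I) = -σ t) :
    Cyc (RingT C t) (k + 1) where
  e θ := Ideal.Quotient.lift (Ideal.span {eqnT C t}) (evz σ (zu hA θ))
    (evz_zero σ hS hA ht θ)
  smooth h := by
    obtain ⟨P, rfl⟩ := Ideal.Quotient.mk_surjective h
    have h3 : (fun θ => Ideal.Quotient.lift (Ideal.span {eqnT C t}) (evz σ (zu hA θ))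
        (evz_zero σ hS hA ht θ) (Ideal.Quotient.mk _ P)) =
        fun θ => ∑ m ∈ P.coeff.support, σ (P.coeff m) *
          ((∏ s, zu hA θ s ^ m s : ℂˣ) : ℂ) := by
      funext θ
      rw [Ideal.Quotient.lift_mk, evz_eq]
    have h4 : ContDiff ℝ 2 fun θ => ∑ m ∈ P.coeff.support, σ (P.coeff m) *
          ((∏ s, zu hA θ s ^ m s : ℂˣ) : ℂ) :=
      ContDiff.sum fun m _ => contDiff_const.mul (contDiff_zu hA m)
    rw [← h3] at h4
    exact h4
  closed i := by
    left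
    intro θ
    have h1 : zu hA (θ + Pi.single i 1) = zu hA θ := funext fun s => zu_per hA θ i s
    simp only [h1]
    all_goals rfl

theorem cycT_per {t : Kˣ} (ht : Complex.exp ((κ : ℂ) * Complex.I) = -σ t) (i : Fin (k + 1))
    (θ : Fin (k + 1) → ℝ) :
    (cycT σ hS hA ht).e (θ + Pi.single i 1) = (cycT σ hS hA ht).e θ := by
  have h1 : zu hA (θ + Pi.single i 1) = zu hA θ := funext fun s => zu_per hA θ i s
  unfold cycT
  simp only [h1]
  all_goals rfl

theorem cycT_proj {t : Kˣ} (ht : Complex.exp ((κ : ℂ) * Complex.I) = -σ t)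
    (θ : Fin (k + 1) → ℝ) (P : LP K (k + 1)) :
    (cycT σ hS hA ht).e θ (projT C t P) = evz σ (zu hA θ) P :=
  Ideal.Quotient.lift_mk _ _ _

theorem cycT_cst {t : Kˣ} (ht : Complex.exp ((κ : ℂ) * Complex.I) = -σ t)
    (θ : Fin (k + 1) → ℝ) (a : K) : (cycT σ hS hA ht).e θ (cstT C t a) = σ a := by
  show (cycT σ hS hA ht).e θ (projT C t (AddMonoidAlgebra.singleZeroRingHom a)) = σ a
  rw [cycT_proj]
  show evz σ (zu hA θ) (AddMonoidAlgebra.single 0 a) = σ a
  rw [evz_single]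
  simp

theorem cycT_x {t : Kˣ} (ht : Complex.exp ((κ : ℂ) * Complex.I) = -σ t) (s : Fin (k + 2)) :
    (fun θ => (cycT σ hS hA ht).e θ (xT C t s)) = fc 0 ((par C σ q h κ).X s) := by
  funext θ
  have h1 : (cycT σ hS hA ht).e θ (xT C t s) =
      evz σ (zu hA θ) (AddMonoidAlgebra.single (Pi.single s 1) ((1 : Kˣ) : K)) :=
    cycT_proj σ hS hA ht θ _
  rw [h1, evz_single, Units.val_one, map_one, one_mul, Finset.prod_eq_single s]
  · rw [Pi.single_eq_same, zpow_one]
    rfl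
  · intro m _ hm
    rw [Pi.single_eq_of_ne hm, zpow_zero]
  · simp

theorem cycT_pt (hC : C.Admissible) {t : Kˣ} (ht : Complex.exp ((κ : ℂ) * Complex.I) = -σ t)
    (j : Fin (r + 1)) :
    (fun θ => (cycT σ hS hA ht).e θ (ptT t hC j).1) = fc 0 ((par C σ q h κ).M j) := by
  funext θ
  have h1 : (cycT σ hS hA ht).e θ (ptT t hC j).1 =
      evz σ (zu hA θ) (AddMonoidAlgebra.single (C.v j) (C.ε j : K)) :=
    cycT_proj σ hS hA ht θ _
  rw [h1, evz_mon σ hS hA θ j]
  rfl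

theorem reg_alphaT (hC : C.Admissible) {t : Kˣ}
    (ht : Complex.exp ((κ : ℂ) * Complex.I) = -σ t) :
    (cycT σ hS hA ht).reg (alphaT t hC) = (par C σ q h κ).RR 0 := by
  unfold alphaT Par.RR
  rw [map_sum]
  refine Finset.sum_congr rfl fun j _ => ?_
  rw [map_smul, map_sum, Rat.smul_def, par_nn σ hS, par_vv σ hS]
  push_cast
  congr 1
  refine Finset.sum_congr rfl fun s _ => ?_
  rw [map_smul, Rat.smul_def]
  push_cast
  congr 1
  unfold Cyc.reg br
  rw [Finsupp.linearCombination_single, one_smul, cycT_pt σ hS hA hC ht]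
  have h1 : (fun (l : Fin (k + 1)) θ => (cycT σ hS hA ht).e θ (xT C t (s.succAbove l))) =
      fun l => fc 0 ((par C σ q h κ).X (s.succAbove l)) :=
    funext fun l => cycT_x σ hS hA ht _
  rw [h1]

end cyc

section final

variable {K : Type*} [Field K] {k r : ℕ} {C : Dat K (k + 1) (r + 1)}

theorem exists_cycT (hC : C.Admissible) (hS : Split C) {t : Kˣ} {N : ℕ} (hN : 0 < N)
    (htN : t ^ N = 1) (ht2 : t ^ 2 ≠ 1) (σ : K →+* ℂ) : ∃ γ : Cyc (RingT C t) (k + 1),
      (∀ θ a, γ.e θ (cstT C t a) = σ a) ∧ (∀ i θ, γ.e (θ + Pi.single i 1) = γ.e θ) ∧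
      γ.reg (alphaT t hC) * (σ t).im < 0 := by
  obtain ⟨q, hq⟩ := exists_generic hC
  set κ : ℝ := Complex.arg (-σ t) with hκ
  have hnorm : ‖σ (t : K)‖ = 1 := norm_root σ ⟨N, hN, htN⟩
  have hexp : Complex.exp ((κ : ℂ) * Complex.I) = -σ t := by
    have h1 := Complex.norm_mul_exp_arg_mul_I (-σ t)
    rw [norm_neg, hnorm, Complex.ofReal_one, one_mul] at h1
    exact h1
  have hsq : σ (t : K) ^ 2 ≠ 1 := by
    intro h
    apply ht2
    ext1
    rw [Units.val_pow_eq_pow_val, Units.val_one]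
    apply σ.injective
    rw [map_pow, h, map_one]
  have hκ0 : κ ≠ 0 := by
    intro h
    rw [h, Complex.ofReal_zero, zero_mul, Complex.exp_zero] at hexp
    apply hsq
    linear_combination (σ (t : K) - 1) * hexp
  have hκπ : κ ≠ Real.pi := by
    intro h
    rw [h, Complex.exp_pi_mul_I] at hexp
    apply hsq
    linear_combination (σ (t : K) + 1) * hexp
  have hκ1 : |κ| < Real.pi := by
    rw [abs_lt]
    exact ⟨Complex.neg_pi_lt_arg _, (Complex.arg_le_pi _).lt_of_ne hκπ⟩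
  obtain ⟨h, hA⟩ := exists_ok (fun j : Fin r => σ (C.ε j.succ))
    (fun j (l : Fin (k + 1)) => C.v j.succ l.succ) (fun j => C.n j.succ) (fun l => q l.succ)
    (fun j => norm_root σ (hC.tors j.succ)) (fun j => by
      have h1 := hq j.succ
      rw [Fin.sum_univ_succ, hS.v_succ, zero_mul, zero_add] at h1
      exact h1) hκ1 hκ0
  have hA' : (par C σ q h κ).Ok := hA
  refine ⟨cycT σ hS hA' hexp, cycT_cst σ hS hA' hexp, cycT_per σ hS hA' hexp, ?_⟩
  rw [reg_alphaT σ hS hA' hC hexp]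
  obtain ⟨J, hJ, hJ2⟩ := hA'.RR_zero fun j => by
    have h1 : σ (C.ε j.succ : K) ^ 2 = 1 := by
      rw [← map_pow, ← Units.val_pow_eq_pow_val, hS.sign, Units.val_one, map_one]
    have h2 : σ (C.ε j.succ : K) = 1 ∨ σ (C.ε j.succ : K) = -1 :=
      sq_eq_sq_iff_eq_or_eq_neg.1 (h1.trans (one_pow 2).symm)
    rcases h2 with h2 | h2
    · show starRingEnd ℂ (σ (C.ε j.succ : K)) = σ (C.ε j.succ : K)
      rw [h2, map_one]
    · show starRingEnd ℂ (σ (C.ε j.succ : K)) = σ (C.ε j.succ : K)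
      rw [h2, map_neg, map_one]
  rw [hJ2]
  have h3 : (σ (t : K)).im = -Real.sin κ := by
    have h4 := congrArg Complex.im hexp
    rw [Complex.exp_ofReal_mul_I_im, Complex.neg_im] at h4
    linarith
  rw [h3]
  have h5 : (par C σ q h κ).κ = κ := rfl
  rw [h5]
  have h6 : 0 < κ * Real.sin κ := by
    rcases lt_or_gt_of_ne hκ0 with h7 | h7
    · exact mul_pos_of_neg_of_neg h7 (Real.sin_neg_of_neg_of_neg_pi_lt h7 (abs_lt.1 hκ1).1)
    · exact mul_pos h7 (Real.sin_pos_of_pos_of_lt_pi h7 (abs_lt.1 hκ1).2)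
  have h7 := mul_pos hJ h6
  linarith

end final

end Pool.Agent.Helper90.HT
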