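import Pool.Agent.Helper90.HB.Defs
set_option autoImplicit false

/-!
The hypersurfaces `∏_j ((1 - m_j) (1 - m_j⁻¹)) ^ (n_j) = t`, `m_j = ε_j x^(v_j)`, in the torus
`𝔾_m^(k+1)`, where `t` is a root of unity.
-/

namespace Pool.Agent.Helper90.HT

open Pool.Agent.N65.TK (Pt)
open Pool.Agent.Helper90.HB

section hypersurfaces

variable {K : Type*} [Field K] {k r : ℕ} (C : Dat K k r) (t : Kˣ)

/-- The equation `∏_j ((1 - m_j) (1 - m_j⁻¹)) ^ (n_j) - t`. -/
noncomputable def eqnT : LP K k :=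
  ∏ j, ((1 - (C.m j : LP K k)) * (1 - ((C.m j)⁻¹ : (LP K k)ˣ))) ^ C.n j -
    AddMonoidAlgebra.single 0 (t : K)

/-- The coordinate ring of the hypersurface in the torus. -/
def RingT : Type _ := LP K k ⧸ Ideal.span {eqnT C t}

noncomputable instance : CommRing (RingT C t) := Ideal.Quotient.commRing (Ideal.span {eqnT C t})

/-- The restriction of functions to the hypersurface. -/
noncomputable def projT : LP K k →+* RingT C t := Ideal.Quotient.mk (Ideal.span {eqnT C t})

/-- The constants. -/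
noncomputable def cstT : K →+* RingT C t := (projT C t).comp AddMonoidAlgebra.singleZeroRingHom

/-- The unit `a x^v` on the hypersurface. -/
noncomputable def mnT (a : Kˣ) (v : Fin (k + 1) → ℤ) : (RingT C t)ˣ :=
  Units.map (projT C t : LP K k →* RingT C t) (mo a v)

/-- The coordinate `x_s` on the hypersurface. -/
noncomputable def xT (s : Fin (k + 1)) : (RingT C t)ˣ := mnT C t 1 (Pi.single s 1)

theorem prod_eqT :
    ∏ j, ((1 - (mnT C t (C.ε j) (C.v j) : RingT C t)) *
      (1 - ((mnT C t (C.ε j) (C.v j))⁻¹ : (RingT C t)ˣ))) ^ C.n j = cstT C t t := by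
  have h : projT C t (eqnT C t) = 0 := Ideal.Quotient.eq_zero_iff_mem.2 (Ideal.subset_span rfl)
  unfold eqnT at h
  rw [map_sub, sub_eq_zero, map_prod] at h
  refine Eq.trans ?_ h
  refine Finset.prod_congr rfl fun j _ => ?_
  rw [map_pow, map_mul, map_sub, map_sub, map_one]
  congr 3

variable {C}

/-- The function `m_j = ε_j x^(v_j)` on the hypersurface; `1 - m_j` is a unit. -/
noncomputable def ptT (hC : C.Admissible) (j : Fin r) : Pt (RingT C t) :=
  ⟨mnT C t (C.ε j) (C.v j), by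
    have h1 := prod_eqT C t
    have h3 : IsUnit (cstT C t (t : K)) := t.isUnit.map _
    rw [← h1, ← Finset.mul_prod_erase Finset.univ _ (Finset.mem_univ j)] at h3
    have h2 := isUnit_of_mul_isUnit_left h3
    rw [isUnit_pow_iff (hC.pos j).ne'] at h2
    exact isUnit_of_mul_isUnit_left h2⟩

/-- The element

  `α = ∑_j n_j / |v_j|² ∑_s (-1)^s v_(j,s) {m_j}_2 ⊗ x_0 ∧ ... ∧ x_k` (without `x_s`),

that is `∑_j n_j / |v_j|² {m_j}_2 ⊗ *m_j`, `*` the Hodge star operator. -/
noncomputable def alphaT (hC : C.Admissible) : FS (RingT C t) k :=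
  ∑ j, ((C.n j : ℚ) / (∑ s, C.v j s ^ 2 : ℤ)) • ∑ s : Fin (k + 1),
    ((-1) ^ (s : ℕ) * (C.v j s : ℚ)) • br (ptT t hC j) fun l => xT C t (s.succAbove l)

/-- The first monomial is the coordinate `x_0`, with multiplicity `1`, the other monomials do not
contain `x_0`, and all coefficients are `1` or `-1`: the equation is
`(1 - x_0) (1 - x_0⁻¹) ∏_(j ≥ 1) ((1 - m_j) (1 - m_j⁻¹)) ^ (n_j) = t`. -/
structure Split {k r : ℕ} (C : Dat K (k + 1) (r + 1)) : Prop where
  ε_zero : C.ε 0 = 1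
  v_zero : C.v 0 = Pi.single 0 1
  n_zero : C.n 0 = 1
  v_succ : ∀ j : Fin r, C.v j.succ 0 = 0
  sign : ∀ j, C.ε j ^ 2 = 1

end hypersurfaces

end Pool.Agent.Helper90.HT
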