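import Pool.Agent.Helper90.HT.Sym2
set_option autoImplicit false

/-!
For a small shift of the torus the function `y` is well defined.
-/

namespace Pool.Agent.Helper90.HT

open MeasureTheory Set Filter Topology Pool.Agent.TH826.MK Pool.Agent.W367.KT
open Pool.Agent.Helper90.HB

theorem slit_of_near {κ φ x : ℝ} {z : ℂ} (hκ : |κ| < Real.pi) (hφ : |φ| ≤ |κ|) (hx : 0 ≤ x)
    (hz : ‖z - x‖ < |Real.sin κ| / 4) :
    1 + 4 * z * Complex.exp (-((φ : ℂ) * Complex.I)) ∈ Complex.slitPlane := by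
  by_contra h
  rw [Complex.mem_slitPlane_iff, not_or, not_lt, not_not] at h
  obtain ⟨h1, h2⟩ := h
  set u : ℂ := 4 * z * Complex.exp (-((φ : ℂ) * Complex.I)) with hu
  have hz1 : z = u / 4 * Complex.exp ((φ : ℂ) * Complex.I) := by
    rw [hu]
    have : Complex.exp (-((φ : ℂ) * Complex.I)) * Complex.exp ((φ : ℂ) * Complex.I) = 1 := by
      rw [← Complex.exp_add, neg_add_cancel, Complex.exp_zero]
    linear_combination (-z) * this
  simp only [Complex.add_re, Complex.one_re, Complex.add_im, Complex.one_im, zero_add] at h1 h2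
  have hu2 : u = ((u.re : ℝ) : ℂ) := Complex.ext (by simp) (by simp [h2])
  set R : ℝ := -u.re / 4 with hR
  have hR1 : 1 / 4 ≤ R := by
    rw [hR]
    linarith
  have hz2 : z = ((-R : ℝ) : ℂ) * Complex.exp ((φ : ℂ) * Complex.I) := by
    rw [hz1, hu2, hR]
    push_cast
    ring
  have hre : z.re = -R * Real.cos φ := by
    rw [hz2, Complex.re_ofReal_mul, Complex.exp_ofReal_mul_I_re]
  have him : z.im = -R * Real.sin φ := by
    rw [hz2, Complex.im_ofReal_mul, Complex.exp_ofReal_mul_I_im]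
  have hsq : ‖z - x‖ ^ 2 < (|Real.sin κ| / 4) ^ 2 := by
    gcongr
  rw [← Complex.normSq_eq_norm_sq, Complex.normSq_apply, div_pow, sq_abs] at hsq
  simp only [Complex.sub_re, Complex.sub_im, Complex.ofReal_re, Complex.ofReal_im, sub_zero] at hsq
  rw [hre, him] at hsq
  have hc1 := Real.sin_sq_add_cos_sq φ
  have hc2 := Real.sin_sq_add_cos_sq κ
  have hR2 : (1 / 4 : ℝ) ^ 2 ≤ R ^ 2 := by
    gcongr
  by_cases hcos : 0 ≤ Real.cos φ
  · have h3 : (R * Real.cos φ) ^ 2 ≤ (x + R * Real.cos φ) ^ 2 := by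
      have h4 : 0 ≤ R * Real.cos φ := mul_nonneg (by linarith) hcos
      nlinarith
    nlinarith [sq_nonneg (Real.cos κ)]
  · have hcos' := not_le.1 hcos
    have h3 : Real.cos |κ| ≤ Real.cos |φ| :=
      Real.cos_le_cos_of_nonneg_of_le_pi (abs_nonneg _) hκ.le hφ
    rw [Real.cos_abs, Real.cos_abs] at h3
    have h4 : Real.cos φ ^ 2 ≤ Real.cos κ ^ 2 := by nlinarith
    have h5 : Real.sin κ ^ 2 ≤ Real.sin φ ^ 2 := by linarith
    have h6 : (1 / 4 : ℝ) ^ 2 * Real.sin κ ^ 2 ≤ R ^ 2 * Real.sin φ ^ 2 := by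
      gcongr
    nlinarith [sq_nonneg (-R * Real.cos φ - x)]

variable {k r : ℕ}

section tube

variable (c : Fin r → ℂ) (v : Fin r → Fin (k + 1) → ℤ) (n : Fin r → ℕ) (q : Fin (k + 1) → ℤ)

/-- the monomial on the torus -/
noncomputable def mz (j : Fin r) (x : Fin (k + 1) → Circle) : ℂ :=
  c j * ∏ l, (x l : ℂ) ^ v j l

/-- the shifted monomial -/
noncomputable def mu (j : Fin r) (p : ℝ × (Fin (k + 1) → Circle)) : ℂ :=
  mz c v j p.2 * Complex.exp (((-(p.1 * ((∑ l, v j l * q l : ℤ) : ℝ)) : ℝ) : ℂ))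

/-- the product -/
noncomputable def cu (p : ℝ × (Fin (k + 1) → Circle)) : ℂ :=
  ∏ j, ((1 - mu c v q j p) * (1 - (mu c v q j p)⁻¹)) ^ n j

variable {c} (hc : ∀ j, ‖c j‖ = 1)

include hc

theorem norm_mz (j : Fin r) (x : Fin (k + 1) → Circle) : ‖mz c v j x‖ = 1 := by
  unfold mz
  rw [norm_mul, hc, one_mul, norm_prod]
  refine Finset.prod_eq_one fun l _ => ?_
  rw [norm_zpow, Circle.norm_coe, one_zpow]

theorem mu_ne (j : Fin r) (p : ℝ × (Fin (k + 1) → Circle)) : mu c v q j p ≠ 0 := by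
  unfold mu
  refine mul_ne_zero ?_ (Complex.exp_ne_zero _)
  rw [← norm_ne_zero_iff, norm_mz v hc]
  exact one_ne_zero

omit hc in
theorem continuous_mu (j : Fin r) : Continuous (mu c v q j) := by
  unfold mu mz
  refine Continuous.mul (continuous_const.mul ?_) ?_
  · refine continuous_finsetProd _ fun l _ => ?_
    have h1 : Continuous fun z : Circle => (z : ℂ) := continuous_subtype_val
    exact (h1.comp ((continuous_apply l).comp continuous_snd)).zpow₀ (v j l) fun p =>
      Or.inl (Circle.coe_ne_zero _)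
  · refine Complex.continuous_exp.comp (Complex.continuous_ofReal.comp ?_)
    exact (continuous_fst.mul continuous_const).neg

theorem continuous_cu : Continuous (cu c v n q) := by
  unfold cu
  refine continuous_finsetProd _ fun j _ => Continuous.pow (Continuous.mul ?_ ?_) _
  · exact continuous_const.sub (continuous_mu v q j)
  · exact continuous_const.sub ((continuous_mu v q j).inv₀ (mu_ne v q hc j))

theorem cu_zero (x : Fin (k + 1) → Circle) :
    ∃ R : ℝ, 0 ≤ R ∧ cu c v n q (0, x) = (R : ℂ) := by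
  refine ⟨∏ j, (Complex.normSq (1 - mz c v j x)) ^ n j, Finset.prod_nonneg fun j _ =>
    pow_nonneg (Complex.normSq_nonneg _) _, ?_⟩
  unfold cu
  push_cast
  refine Finset.prod_congr rfl fun j _ => ?_
  congr 1
  have h1 : mu c v q j (0, x) = mz c v j x := by
    unfold mu
    simp
  rw [h1, ← Complex.mul_conj, map_sub, map_one]
  congr 2
  have h2 : mz c v j x * starRingEnd ℂ (mz c v j x) = 1 := by
    rw [Complex.mul_conj, Complex.normSq_eq_norm_sq, norm_mz v hc]
    simp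
  exact inv_eq_of_mul_eq_one_right h2

theorem exists_tube {η : ℝ} (hη : 0 < η) : ∃ h : ℝ, 0 < h ∧
    ∀ x, ‖cu c v n q (h, x) - cu c v n q (0, x)‖ < η := by
  have hcont : Continuous fun p : ℝ × (Fin (k + 1) → Circle) =>
      ‖cu c v n q p - cu c v n q (0, p.2)‖ :=
    ((continuous_cu v n q hc).sub ((continuous_cu v n q hc).comp
      (continuous_const.prodMk continuous_snd))).norm
  have hopen : IsOpen {p : ℝ × (Fin (k + 1) → Circle) |
      ‖cu c v n q p - cu c v n q (0, p.2)‖ < η} := isOpen_lt hcont continuous_const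
  obtain ⟨u, w, hu, -, h0, hw, hsub⟩ := generalized_tube_lemma (isCompact_singleton (x := (0 : ℝ)))
    (isCompact_univ (X := Fin (k + 1) → Circle)) hopen (by
      rintro ⟨a, x⟩ ⟨ha, -⟩
      rw [mem_singleton_iff] at ha
      simp only [] at ha
      subst ha
      simpa using hη)
  obtain ⟨δ, hδ, hball⟩ := Metric.isOpen_iff.1 hu 0 (h0 rfl)
  refine ⟨δ / 2, by positivity, fun x => ?_⟩
  have h1 : ((δ / 2, x) : ℝ × (Fin (k + 1) → Circle)) ∈ u ×ˢ w := by
    refine ⟨hball ?_, hw (mem_univ x)⟩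
    rw [Metric.mem_ball, dist_zero_right, Real.norm_eq_abs, abs_of_pos (by positivity)]
    linarith
  exact hsub h1

end tube

section final

variable (A : Par k r)

theorem Par.mm_eq (j : Fin r) (p : Fin (k + 2) → ℝ) : A.mm j p =
    mu A.c A.v A.q j (A.h, fun l => Circle.exp (2 * Real.pi * p l.succ)) := by
  unfold Par.mm Par.ex mu mz Par.ax
  rw [mul_assoc]
  congr 1
  have h1 : ∏ l, (Circle.exp (2 * Real.pi * p l.succ) : ℂ) ^ A.v j l =
      ∏ l, Complex.exp ((A.v j l : ℂ) * (((2 * Real.pi * p l.succ : ℝ) : ℂ) * Complex.I)) := by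
    refine Finset.prod_congr rfl fun l _ => ?_
    rw [Circle.coe_exp, Complex.exp_int_mul]
  rw [h1, ← Complex.exp_sum, ← Complex.exp_add]
  congr 1
  push_cast
  rw [Finset.mul_sum, ← Finset.sum_neg_distrib, ← Finset.sum_add_distrib]
  refine Finset.sum_congr rfl fun l _ => ?_
  ring

theorem Par.cc_eq (p : Fin (k + 2) → ℝ) : A.cc p =
    cu A.c A.v A.n A.q (A.h, fun l => Circle.exp (2 * Real.pi * p l.succ)) := by
  unfold Par.cc cu
  simp only [A.mm_eq]

/-- For a small shift all conditions are satisfied. -/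
theorem exists_ok (c : Fin r → ℂ) (v : Fin r → Fin (k + 1) → ℤ) (n : Fin r → ℕ)
    (q : Fin (k + 1) → ℤ) {κ : ℝ} (hc : ∀ j, ‖c j‖ = 1) (hq : ∀ j, ∑ l, v j l * q l ≠ 0)
    (hκ : |κ| < Real.pi) (hκ0 : κ ≠ 0) : ∃ h : ℝ, (⟨c, v, n, q, h, κ⟩ : Par k r).Ok := by
  have hsin : 0 < |Real.sin κ| / 4 := by
    have h1 : Real.sin κ ≠ 0 := by
      intro h
      rw [Real.sin_eq_zero_iff_of_lt_of_lt (abs_lt.1 hκ).1 (abs_lt.1 hκ).2] at h
      exact hκ0 h
    positivity
  obtain ⟨h, hh, hh2⟩ := exists_tube v n q hc hsin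
  refine ⟨h, hc, hh, hq, fun p => ?_⟩
  set A : Par k r := ⟨c, v, n, q, h, κ⟩ with hA
  set x : Fin (k + 1) → Circle := fun l => Circle.exp (2 * Real.pi * p l.succ) with hx
  obtain ⟨R, hR, hR2⟩ := cu_zero v n q hc x
  have h1 : A.cc p = cu c v n q (h, x) := A.cc_eq p
  have h2 := hh2 x
  rw [← h1, hR2] at h2
  unfold Par.ww Par.tt
  refine slit_of_near hκ ?_ hR h2
  have h3 : A.κ = κ := rfl
  rw [h3, abs_mul]
  have h4 := Real.abs_cos_le_one (Real.pi * p 0)
  have h5 := abs_nonneg κ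
  nlinarith

end final

end Pool.Agent.Helper90.HT
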