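import Pool.Agent.Helper90.HT.Grow
set_option autoImplicit false

/-!
The functions on the family of tori: `x_l = exp(2 π i θ_l - h q_l)`, the monomials, and
`y = (ρ + 1) / (ρ - 1)`, `ρ² = 1 + 4 c exp(-i κ cos(π s))`, so that
`(1 - y) (1 - 1/y) c = -exp(i κ cos(π s))`.
-/

namespace Pool.Agent.Helper90.HT

open MeasureTheory Set Pool.Agent.TH826.MK Pool.Agent.W367.KT Pool.Agent.Helper90.HB

/-- the parameters -/
structure Par (k r : ℕ) where
  c : Fin r → ℂ
  v : Fin r → Fin (k + 1) → ℤ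
  n : Fin r → ℕ
  q : Fin (k + 1) → ℤ
  h : ℝ
  κ : ℝ

variable {k r : ℕ} (A : Par k r)

/-- the exponent -/
noncomputable def Par.ax (b : Fin (k + 1) → ℤ) (p : Fin (k + 2) → ℝ) : ℂ :=
  ∑ l, (b l : ℂ) * (((2 * Real.pi * p l.succ : ℝ) : ℂ) * Complex.I - ((A.h * A.q l : ℝ) : ℂ))

/-- the exponential functions -/
noncomputable def Par.ex (c : ℂ) (b : Fin (k + 1) → ℤ) (p : Fin (k + 2) → ℝ) : ℂ :=
  c * Complex.exp (A.ax b p)

/-- the coordinates -/
noncomputable def Par.xx (l : Fin (k + 1)) : (Fin (k + 2) → ℝ) → ℂ := A.ex 1 (Pi.single l 1)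

/-- the monomials -/
noncomputable def Par.mm (j : Fin r) : (Fin (k + 2) → ℝ) → ℂ := A.ex (A.c j) (A.v j)

/-- the product -/
noncomputable def Par.cc (p : Fin (k + 2) → ℝ) : ℂ :=
  ∏ j, ((1 - A.mm j p) * (1 - (A.mm j p)⁻¹)) ^ A.n j

/-- `exp(-i κ cos(π s))` -/
noncomputable def Par.tt (p : Fin (k + 2) → ℝ) : ℂ :=
  Complex.exp (-(((A.κ * Real.cos (Real.pi * p 0) : ℝ) : ℂ) * Complex.I))

/-- the parameter `-exp(i κ cos(π s))` -/
noncomputable def Par.TT (p : Fin (k + 2) → ℝ) : ℂ :=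
  -Complex.exp (((A.κ * Real.cos (Real.pi * p 0) : ℝ) : ℂ) * Complex.I)

/-- the radicand -/
noncomputable def Par.ww (p : Fin (k + 2) → ℝ) : ℂ := 1 + 4 * A.cc p * A.tt p

/-- the root -/
noncomputable def Par.rr (p : Fin (k + 2) → ℝ) : ℂ := Complex.exp (Complex.log (A.ww p) / 2)

/-- the function `y` -/
noncomputable def Par.yy (p : Fin (k + 2) → ℝ) : ℂ := (A.rr p + 1) / (A.rr p - 1)

/-- the conditions -/
structure Par.Ok : Prop where
  hc : ∀ j, ‖A.c j‖ = 1
  hh : 0 < A.h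
  hq : ∀ j, ∑ l, A.v j l * A.q l ≠ 0
  hw : ∀ p, A.ww p ∈ Complex.slitPlane

/-- the rows of the coordinates -/
noncomputable def Par.B (l : Fin (k + 1)) : Fin (k + 3) → ℂ :=
  ((-(A.h * A.q l) : ℝ) : ℂ) • Pi.single 0 1 + Pi.single l.succ.succ (2 * Real.pi * Complex.I)

/-- the linear function -/
noncomputable def Par.Lam (w : Fin (k + 3) → ℂ) : ℂ :=
  w 0 - ∑ l : Fin (k + 1), ((-(A.h * A.q l) : ℝ) : ℂ) / (2 * Real.pi * Complex.I) * w l.succ.succ

theorem Par.Lam_add (w w' : Fin (k + 3) → ℂ) : A.Lam (w + w') = A.Lam w + A.Lam w' := by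
  unfold Par.Lam
  simp only [Pi.add_apply, mul_add, Finset.sum_add_distrib]
  ring

theorem Par.Lam_smul (c : ℂ) (w : Fin (k + 3) → ℂ) : A.Lam (c • w) = c * A.Lam w := by
  unfold Par.Lam
  simp only [Pi.smul_apply, smul_eq_mul, mul_sub, Finset.mul_sum]
  congr 1
  exact Finset.sum_congr rfl fun l _ => by ring

theorem Par.Lam_zero : A.Lam 0 = 0 := by
  have := A.Lam_smul 0 0
  rwa [zero_smul, zero_mul] at this

theorem Par.Lam_neg (w : Fin (k + 3) → ℂ) : A.Lam (-w) = -A.Lam w := by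
  have := A.Lam_smul (-1) w
  rwa [neg_one_smul, neg_one_mul] at this

theorem Par.Lam_sum {ι : Type*} (S : Finset ι) (w : ι → Fin (k + 3) → ℂ) :
    A.Lam (∑ i ∈ S, w i) = ∑ i ∈ S, A.Lam (w i) := by
  classical
  induction S using Finset.induction_on with
  | empty => simp [A.Lam_zero]
  | insert i S hi ih => rw [Finset.sum_insert hi, Finset.sum_insert hi, A.Lam_add, ih]

theorem two_pi_I_ne : (2 * Real.pi * Complex.I : ℂ) ≠ 0 := Complex.two_pi_I_ne_zero

theorem Par.Lam_B (l : Fin (k + 1)) : A.Lam (A.B l) = 0 := by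
  unfold Par.Lam Par.B
  have h1 : ∀ l' : Fin (k + 1), (((-(A.h * A.q l) : ℝ) : ℂ) • (Pi.single 0 1 : Fin (k + 3) → ℂ) +
      (Pi.single l.succ.succ (2 * Real.pi * Complex.I) : Fin (k + 3) → ℂ)) l'.succ.succ =
      if l' = l then 2 * Real.pi * Complex.I else 0 := by
    intro l'
    rw [Pi.add_apply, Pi.smul_apply, Pi.single_eq_of_ne (Fin.succ_ne_zero _), smul_zero, zero_add]
    split_ifs with h
    · subst h
      rw [Pi.single_eq_same]
    · rw [Pi.single_eq_of_ne]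
      exact fun e => h (Fin.succ_injective _ (Fin.succ_injective _ e))
  simp only [h1, mul_ite, mul_zero, Finset.sum_ite_eq', Finset.mem_univ, if_true]
  rw [Pi.add_apply, Pi.smul_apply, Pi.single_eq_same, Pi.single_eq_of_ne (Fin.succ_ne_zero _).symm,
    div_mul_cancel₀ _ two_pi_I_ne, smul_eq_mul, mul_one, add_zero, sub_self]

/-- the derivative of the exponent -/
noncomputable def Par.ax' (b : Fin (k + 1) → ℤ) : (Fin (k + 2) → ℝ) →L[ℝ] ℂ :=
  ∑ l, ((b l : ℂ) * (2 * Real.pi * Complex.I)) •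
    Complex.ofRealCLM.comp (ContinuousLinearMap.proj (R := ℝ) (φ := fun _ => ℝ) l.succ)

theorem Par.hasFDerivAt_ax (b : Fin (k + 1) → ℤ) (p : Fin (k + 2) → ℝ) :
    HasFDerivAt (A.ax b) (Par.ax' b) p := by
  unfold Par.ax Par.ax'
  refine HasFDerivAt.fun_sum fun l _ => ?_
  have h1 : HasFDerivAt (fun p : Fin (k + 2) → ℝ => ((p l.succ : ℝ) : ℂ))
      (Complex.ofRealCLM.comp (ContinuousLinearMap.proj (R := ℝ) (φ := fun _ => ℝ) l.succ)) p :=
    (Complex.ofRealCLM.comp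
      (ContinuousLinearMap.proj (R := ℝ) (φ := fun _ => ℝ) l.succ)).hasFDerivAt
  have h2 := ((h1.const_mul ((b l : ℂ) * (2 * Real.pi * Complex.I))).sub_const
    ((b l : ℂ) * ((A.h * A.q l : ℝ) : ℂ)))
  refine h2.congr_of_eventuallyEq (Filter.Eventually.of_forall fun z => ?_)
  simp only []
  push_cast
  ring

theorem Par.ax'_zero (b : Fin (k + 1) → ℤ) : Par.ax' b (Pi.single 0 1) = 0 := by
  unfold Par.ax'
  rw [sum_apply]
  refine Finset.sum_eq_zero fun l _ => ?_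
  simp [Fin.succ_ne_zero]

theorem Par.ax'_succ (b : Fin (k + 1) → ℤ) (l : Fin (k + 1)) :
    Par.ax' b (Pi.single l.succ 1) = (b l : ℂ) * (2 * Real.pi * Complex.I) := by
  unfold Par.ax'
  rw [sum_apply, Finset.sum_eq_single l]
  · simp
  · intro m _ hm
    have h1 : (Pi.single l.succ 1 : Fin (k + 2) → ℝ) m.succ = 0 :=
      Pi.single_eq_of_ne (fun e => hm (Fin.succ_injective _ e)) _
    simp [h1]
  · simp

theorem Par.contDiff_ax (b : Fin (k + 1) → ℤ) : ContDiff ℝ 2 (A.ax b) := by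
  unfold Par.ax
  refine ContDiff.sum fun l _ => contDiff_const.mul (ContDiff.sub ?_ contDiff_const)
  refine ContDiff.mul ?_ contDiff_const
  exact Complex.ofRealCLM.contDiff.comp (contDiff_const.mul (contDiff_apply ℝ ℝ l.succ))

theorem Par.good_ex {c : ℂ} (hc : ‖c‖ = 1) (b : Fin (k + 1) → ℤ) : Good (A.ex c b) :=
  ⟨contDiff_const.mul (A.contDiff_ax b).cexp, fun p => mul_ne_zero (by
    intro h
    rw [h, norm_zero] at hc
    exact zero_ne_one hc) (Complex.exp_ne_zero _)⟩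

theorem Par.re_ax (b : Fin (k + 1) → ℤ) (p : Fin (k + 2) → ℝ) :
    (A.ax b p).re = -(A.h * ∑ l, b l * A.q l) := by
  unfold Par.ax
  push_cast
  rw [Complex.re_sum, Finset.mul_sum, ← Finset.sum_neg_distrib]
  refine Finset.sum_congr rfl fun l _ => ?_
  simp
  ring

theorem Par.norm_ex {c : ℂ} (hc : ‖c‖ = 1) (b : Fin (k + 1) → ℤ) (p : Fin (k + 2) → ℝ) :
    ‖A.ex c b p‖ = Real.exp (-(A.h * ∑ l, b l * A.q l)) := by
  unfold Par.ex
  rw [norm_mul, hc, one_mul, Complex.norm_exp, A.re_ax]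

theorem Par.grow_ex {c : ℂ} (hc : ‖c‖ = 1) (b : Fin (k + 1) → ℤ) (y : Fin (k + 3) → ℝ) :
    grow (A.ex c b) y = ∑ l, (b l : ℂ) • A.B l := by
  have hc0 : c ≠ 0 := by
    intro h
    rw [h, norm_zero] at hc
    exact zero_ne_one hc
  have hlw : ∀ i, lw (A.ex c b) i (tl (k + 2) y) = Par.ax' b (Pi.single i 1) := fun i =>
    lw_exp (A.hasFDerivAt_ax b _) c hc0 i
  funext i
  rw [Finset.sum_apply]
  unfold Par.B
  refine Fin.cases ?_ (fun i => ?_) i
  · rw [grow_zero, A.norm_ex hc, Real.log_exp]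
    push_cast
    rw [Finset.mul_sum, ← Finset.sum_neg_distrib]
    refine Finset.sum_congr rfl fun l _ => ?_
    simp only [Pi.smul_apply, Pi.add_apply, Pi.single_eq_same, smul_eq_mul]
    rw [Pi.single_eq_of_ne (Fin.succ_ne_zero _).symm]
    ring
  · rw [grow_succ, hlw]
    refine Fin.cases ?_ (fun i => ?_) i
    · rw [Par.ax'_zero]
      symm
      simp only [Complex.zero_re, Complex.zero_im, mul_zero, Complex.ofReal_zero, add_zero]
      refine Finset.sum_eq_zero fun l _ => ?_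
      simp only [Pi.smul_apply, Pi.add_apply]
      rw [Pi.single_eq_of_ne (Fin.succ_ne_zero _), Pi.single_eq_of_ne]
      · simp
      · exact fun e => Fin.succ_ne_zero _ (Fin.succ_injective _ e).symm
    · rw [Par.ax'_succ, Finset.sum_eq_single i]
      · simp only [Pi.smul_apply, Pi.add_apply, Pi.single_eq_same]
        rw [Pi.single_eq_of_ne (Fin.succ_ne_zero _)]
        simp
        ring
      · intro l _ hl
        simp only [Pi.smul_apply, Pi.add_apply]
        rw [Pi.single_eq_of_ne (Fin.succ_ne_zero _), Pi.single_eq_of_ne]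
        · simp
        · exact fun e => hl (Fin.succ_injective _ (Fin.succ_injective _ e)).symm
      · simp

theorem Par.grow_xx (l : Fin (k + 1)) (y : Fin (k + 3) → ℝ) : grow (A.xx l) y = A.B l := by
  unfold Par.xx
  rw [A.grow_ex (by simp), Finset.sum_eq_single l]
  · simp
  · intro m _ hm
    rw [Pi.single_eq_of_ne hm]
    simp
  · simp

theorem Par.per_ex (c : ℂ) (b : Fin (k + 1) → ℤ) (i : Fin (k + 1)) :
    PerI i.succ (A.ex c b) := by
  intro p
  unfold Par.ex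
  have : A.ax b (p + Pi.single i.succ 1) = A.ax b p + (b i : ℂ) * (2 * Real.pi * Complex.I) := by
    unfold Par.ax
    have h1 : ∀ l : Fin (k + 1), (b l : ℂ) * (((2 * Real.pi * (p + Pi.single i.succ 1 :
        Fin (k + 2) → ℝ) l.succ : ℝ) : ℂ) * Complex.I - ((A.h * A.q l : ℝ) : ℂ)) =
        (b l : ℂ) * (((2 * Real.pi * p l.succ : ℝ) : ℂ) * Complex.I - ((A.h * A.q l : ℝ) : ℂ)) +
        if l = i then (b i : ℂ) * (2 * Real.pi * Complex.I) else 0 := by
      intro l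
      split_ifs with h
      · subst h
        rw [Pi.add_apply, Pi.single_eq_same]
        push_cast
        ring
      · rw [Pi.add_apply, Pi.single_eq_of_ne (fun e => h (Fin.succ_injective _ e))]
        simp
    rw [Finset.sum_congr rfl fun l _ => h1 l, Finset.sum_add_distrib]
    simp
  rw [this, Complex.exp_add, Complex.exp_int_mul_two_pi_mul_I, mul_one]

section ok

variable {A} (hA : A.Ok)

include hA

theorem Par.Ok.norm_mm (j : Fin r) (p : Fin (k + 2) → ℝ) :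
    ‖A.mm j p‖ = Real.exp (-(A.h * ∑ l, A.v j l * A.q l)) := A.norm_ex (hA.hc j) _ _

theorem Par.Ok.norm_ne_one (j : Fin r) (p : Fin (k + 2) → ℝ) : ‖A.mm j p‖ ≠ 1 := by
  rw [hA.norm_mm, Ne, Real.exp_eq_one_iff, neg_eq_zero, mul_eq_zero]
  rintro (h | h)
  · exact hA.hh.ne' h
  · exact hA.hq j (by exact_mod_cast h)

theorem Par.Ok.mm_ne_one (j : Fin r) (p : Fin (k + 2) → ℝ) : A.mm j p ≠ 1 := by
  intro h
  apply hA.norm_ne_one j p
  rw [h, norm_one]

theorem Par.Ok.good_mm (j : Fin r) : Good (A.mm j) := A.good_ex (hA.hc j) _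

theorem Par.Ok.good_om_mm (j : Fin r) : Good (om (A.mm j)) :=
  ⟨contDiff_om (hA.good_mm j).smooth, fun p => sub_ne_zero.2 (hA.mm_ne_one j p).symm⟩

theorem Par.Ok.good_om_inv (j : Fin r) : Good fun p => 1 - (A.mm j p)⁻¹ :=
  ⟨contDiff_const.sub (good_inv (hA.good_mm j)).smooth, fun p => sub_ne_zero.2 fun h =>
    hA.mm_ne_one j p (by rw [← inv_inv (A.mm j p), ← h, inv_one])⟩

theorem Par.Ok.good_fac (j : Fin r) : Good fun p => ((1 - A.mm j p) * (1 - (A.mm j p)⁻¹)) ^ A.n j :=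
  good_pow ((hA.good_om_mm j).mul (hA.good_om_inv j)) _

theorem Par.Ok.good_cc : Good A.cc :=
  good_prod Finset.univ (fun j p => ((1 - A.mm j p) * (1 - (A.mm j p)⁻¹)) ^ A.n j) hA.good_fac

omit hA in
theorem contDiff_cos_pi : ContDiff ℝ 2 fun p : Fin (k + 2) → ℝ =>
    (((A.κ * Real.cos (Real.pi * p 0) : ℝ) : ℂ) * Complex.I) := by
  refine ContDiff.mul ?_ contDiff_const
  refine Complex.ofRealCLM.contDiff.comp (contDiff_const.mul ?_)
  exact Real.contDiff_cos.comp (contDiff_const.mul (contDiff_apply ℝ ℝ 0))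

omit hA in
theorem good_tt : Good A.tt :=
  ⟨(contDiff_cos_pi (A := A)).neg.cexp, fun _ => Complex.exp_ne_zero _⟩

omit hA in
theorem good_TT : Good A.TT :=
  ⟨(contDiff_cos_pi (A := A)).cexp.neg, fun _ => neg_ne_zero.2 (Complex.exp_ne_zero _)⟩

omit hA in
theorem TT_mul_tt (p : Fin (k + 2) → ℝ) : A.TT p * A.tt p = -1 := by
  unfold Par.TT Par.tt
  rw [neg_mul, ← Complex.exp_add, add_neg_cancel, Complex.exp_zero]

theorem Par.Ok.contDiff_ww : ContDiff ℝ 2 A.ww :=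
  contDiff_const.add ((contDiff_const.mul hA.good_cc.smooth).mul good_tt.smooth)

omit hA in
theorem contDiff_log {g : (Fin (k + 2) → ℝ) → ℂ} (hg : ContDiff ℝ 2 g)
    (h : ∀ p, g p ∈ Complex.slitPlane) : ContDiff ℝ 2 fun p => Complex.log (g p) := by
  rw [contDiff_iff_contDiffAt]
  intro p
  exact ((Complex.contDiffAt_log (h p)).restrict_scalars ℝ).comp p hg.contDiffAt

theorem Par.Ok.contDiff_rr : ContDiff ℝ 2 A.rr := by
  have h := contDiff_log hA.contDiff_ww hA.hw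
  exact (h.div_const 2).cexp

theorem Par.Ok.rr_sq (p : Fin (k + 2) → ℝ) : A.rr p * A.rr p = A.ww p := by
  unfold Par.rr
  rw [← Complex.exp_add, add_halves, Complex.exp_log (Complex.slitPlane_ne_zero (hA.hw p))]

theorem Par.Ok.rr_re (p : Fin (k + 2) → ℝ) : 0 < (A.rr p).re := by
  unfold Par.rr
  rw [Complex.exp_re]
  refine mul_pos (Real.exp_pos _) (Real.cos_pos_of_mem_Ioo ?_)
  have h1 : (Complex.log (A.ww p) / 2).im = (A.ww p).arg / 2 := by
    rw [← Complex.log_im]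
    simp
  rw [h1]
  have h2 := Complex.neg_pi_lt_arg (A.ww p)
  have h3 := (Complex.arg_le_pi (A.ww p)).lt_of_ne (Complex.mem_slitPlane_iff_arg.1 (hA.hw p)).1
  constructor <;> linarith

theorem Par.Ok.rr_add_mul (p : Fin (k + 2) → ℝ) :
    (A.rr p + 1) * (A.rr p - 1) = 4 * A.cc p * A.tt p := by
  have h1 := hA.rr_sq p
  unfold Par.ww at h1
  linear_combination h1

theorem Par.Ok.rr_sub_ne (p : Fin (k + 2) → ℝ) : A.rr p - 1 ≠ 0 := by
  intro h
  have h1 := hA.rr_add_mul p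
  rw [h, mul_zero] at h1
  exact mul_ne_zero (mul_ne_zero (by norm_num) (hA.good_cc.ne_zero p)) (good_tt.ne_zero p) h1.symm

theorem Par.Ok.rr_add_slit (p : Fin (k + 2) → ℝ) : A.rr p + 1 ∈ Complex.slitPlane := by
  left
  have := hA.rr_re p
  simp only [Complex.add_re, Complex.one_re]
  linarith

theorem Par.Ok.good_rr_add : Good fun p => A.rr p + 1 :=
  ⟨hA.contDiff_rr.add contDiff_const, fun p => Complex.slitPlane_ne_zero (hA.rr_add_slit p)⟩

theorem Par.Ok.good_rr_sub : Good fun p => A.rr p - 1 :=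
  ⟨hA.contDiff_rr.sub contDiff_const, hA.rr_sub_ne⟩

theorem Par.Ok.good_yy : Good A.yy := by
  have := hA.good_rr_add.mul (good_inv hA.good_rr_sub)
  have e : (fun p => (A.rr p + 1) * (A.rr p - 1)⁻¹) = A.yy := by
    funext p
    unfold Par.yy
    rw [div_eq_mul_inv]
  rwa [e] at this

theorem Par.Ok.one_sub_yy (p : Fin (k + 2) → ℝ) : 1 - A.yy p = -2 / (A.rr p - 1) := by
  have := hA.rr_sub_ne p
  unfold Par.yy
  field_simp
  ring

theorem Par.Ok.one_sub_inv_yy (p : Fin (k + 2) → ℝ) : 1 - (A.yy p)⁻¹ = 2 / (A.rr p + 1) := by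
  have h1 := hA.rr_sub_ne p
  have h2 : A.rr p + 1 ≠ 0 := hA.good_rr_add.ne_zero p
  unfold Par.yy
  rw [inv_div]
  field_simp
  ring

theorem Par.Ok.eqn (p : Fin (k + 2) → ℝ) :
    (1 - A.yy p) * (1 - (A.yy p)⁻¹) * A.cc p = A.TT p := by
  rw [hA.one_sub_yy, hA.one_sub_inv_yy]
  have h1 := hA.rr_sub_ne p
  have h2 : A.rr p + 1 ≠ 0 := hA.good_rr_add.ne_zero p
  have h3 := hA.rr_add_mul p
  have h4 := TT_mul_tt (A := A) p
  rw [div_mul_div_comm, div_mul_eq_mul_div, div_eq_iff (mul_ne_zero h1 h2)]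
  have h6 : A.TT p * ((A.rr p - 1) * (A.rr p + 1)) = 4 * A.cc p * (A.TT p * A.tt p) := by
    rw [mul_comm (A.rr p - 1), h3]
    ring
  rw [h6, h4]
  ring

theorem Par.Ok.one_sub_yy_ne (p : Fin (k + 2) → ℝ) : 1 - A.yy p ≠ 0 := by
  rw [hA.one_sub_yy]
  exact div_ne_zero (by norm_num) (hA.rr_sub_ne p)

theorem Par.Ok.norm_yy (p : Fin (k + 2) → ℝ) : 1 < ‖A.yy p‖ := by
  have h1 := hA.rr_sub_ne p
  unfold Par.yy
  rw [norm_div, one_lt_div (norm_pos_iff.2 h1), ← sq_lt_sq₀ (norm_nonneg _) (norm_nonneg _),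
    ← Complex.normSq_eq_norm_sq, ← Complex.normSq_eq_norm_sq, Complex.normSq_apply,
    Complex.normSq_apply]
  have := hA.rr_re p
  simp only [Complex.add_re, Complex.sub_re, Complex.one_re, Complex.add_im, Complex.sub_im,
    Complex.one_im]
  nlinarith

end ok

end Pool.Agent.Helper90.HT
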