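import Pool.Agent.Helper90.HT.Sum
set_option autoImplicit false

/-!
The rows `grow g` of products, powers and exponentials.
-/

namespace Pool.Agent.Helper90.HT

open MeasureTheory Set Pool.Agent.TH826.MK Pool.Agent.W367.KT Pool.Agent.Helper90.HB

section grow

variable {d : ℕ} {g h : (Fin d → ℝ) → ℂ}

theorem good_const {c : ℂ} (hc : c ≠ 0) : Good (fun _ : Fin d → ℝ => c) :=
  ⟨contDiff_const, fun _ => hc⟩

theorem grow_const {c : ℂ} (y : Fin (d + 1) → ℝ) :
    grow (fun _ : Fin d → ℝ => c) y = Pi.single 0 ((Real.log ‖c‖ : ℝ) : ℂ) := by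
  funext i
  refine Fin.cases ?_ (fun i => ?_) i
  · rw [grow_zero, Pi.single_eq_same]
  · rw [grow_succ, Pi.single_eq_of_ne (Fin.succ_ne_zero i)]
    unfold lw
    simp

theorem grow_const_one {c : ℂ} (hc : ‖c‖ = 1) (y : Fin (d + 1) → ℝ) :
    grow (fun _ : Fin d → ℝ => c) y = 0 := by
  rw [grow_const, hc, Real.log_one]
  simp

theorem good_inv (hg : Good g) : Good fun θ => (g θ)⁻¹ :=
  ⟨hg.smooth.inv hg.ne_zero, fun θ => inv_ne_zero (hg.ne_zero θ)⟩

theorem grow_inv (hg : Good g) (y : Fin (d + 1) → ℝ) :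
    grow (fun θ => (g θ)⁻¹) y = -grow g y := by
  have h1 := grow_mul hg (good_inv hg) y
  have h2 : (fun θ => g θ * (g θ)⁻¹) = fun _ => (1 : ℂ) :=
    funext fun θ => mul_inv_cancel₀ (hg.ne_zero θ)
  rw [h2, grow_const_one (by simp)] at h1
  exact (neg_eq_of_add_eq_zero_right h1.symm).symm

theorem good_pow (hg : Good g) (n : ℕ) : Good fun θ => g θ ^ n :=
  ⟨hg.smooth.pow n, fun θ => pow_ne_zero n (hg.ne_zero θ)⟩

theorem grow_pow (hg : Good g) (n : ℕ) (y : Fin (d + 1) → ℝ) :
    grow (fun θ => g θ ^ n) y = (n : ℂ) • grow g y := by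
  induction n with
  | zero =>
    simp only [pow_zero, Nat.cast_zero, zero_smul]
    exact grow_const_one (by simp) y
  | succ n ih =>
    simp only [pow_succ]
    rw [grow_mul (good_pow hg n) hg, ih]
    push_cast
    module

theorem good_prod {ι : Type*} (S : Finset ι) (f : ι → (Fin d → ℝ) → ℂ) (hf : ∀ i, Good (f i)) :
    Good fun θ => ∏ i ∈ S, f i θ :=
  ⟨contDiff_prod fun i _ => (hf i).smooth, fun θ => Finset.prod_ne_zero_iff.2
    fun i _ => (hf i).ne_zero θ⟩

theorem grow_prod {ι : Type*} (S : Finset ι) (f : ι → (Fin d → ℝ) → ℂ) (hf : ∀ i, Good (f i))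
    (y : Fin (d + 1) → ℝ) : grow (fun θ => ∏ i ∈ S, f i θ) y = ∑ i ∈ S, grow (f i) y := by
  classical
  induction S using Finset.induction_on with
  | empty =>
    simp only [Finset.prod_empty, Finset.sum_empty]
    exact grow_const_one (by simp) y
  | insert i S hi ih =>
    simp only [Finset.prod_insert hi, Finset.sum_insert hi]
    rw [grow_mul (hf i) (good_prod S f hf), ih]

/-- the row of an exponential -/
theorem lw_exp {A : (Fin d → ℝ) → ℂ} {A' : (Fin d → ℝ) →L[ℝ] ℂ} {θ : Fin d → ℝ}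
    (hA : HasFDerivAt A A' θ) (c : ℂ) (hc : c ≠ 0) (i : Fin d) :
    lw (fun θ => c * Complex.exp (A θ)) i θ = A' (Pi.single i 1) := by
  have h3 := (hA.cexp).const_mul c
  unfold lw
  rw [h3.fderiv]
  simp only [smul_apply, smul_eq_mul]
  have := Complex.exp_ne_zero (A θ)
  field_simp

end grow

end Pool.Agent.Helper90.HT
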