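import Pool.Agent.Helper90.HT.Tot
set_option autoImplicit false

/-!
The difference of the regulators of the two end members, and its sign.
-/

namespace Pool.Agent.Helper90.HT

open MeasureTheory Set Filter Pool.Agent.TH826.MK Pool.Agent.W367.KT Pool.Agent.Helper90.HB

section div

/-- the integral of a derivative of a periodic function -/
theorem integral_fderiv_per {n : ℕ} (l : Fin n) {H : (Fin (n + 1) → ℝ) → ℝ} (hH : ContDiff ℝ 1 H)
    (hp : ∀ p, H (p + Pi.single l.succ 1) = H p) :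
    ∫ p in Icc (0 : Fin (n + 1) → ℝ) 1, fderiv ℝ H p (Pi.single l.succ 1) = 0 := by
  have hd : ∀ p, HasFDerivAt H (fderiv ℝ H p) p := fun p =>
    (hH.differentiable (by norm_num) p).hasFDerivAt
  have hcd : Continuous fun p => fderiv ℝ H p (Pi.single l.succ 1) :=
    (hH.continuous_fderiv (by norm_num)).clm_apply continuous_const
  set V : Fin (n + 1) → (Fin (n + 1) → ℝ) → ℝ := fun i => if i = l.succ then H else fun _ => 0
    with hV
  set V' : Fin (n + 1) → (Fin (n + 1) → ℝ) → (Fin (n + 1) → ℝ) →L[ℝ] ℝ :=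
    fun i => if i = l.succ then fderiv ℝ H else fun _ => 0 with hV'
  have hVd : ∀ i p, HasFDerivAt (V i) (V' i p) p := by
    intro i p
    rw [hV, hV']
    by_cases h : i = l.succ
    · simp only [if_pos h]
      exact hd p
    · simp only [if_neg h]
      exact hasFDerivAt_const _ _
  have hsum : ∀ p, ∑ i, V' i p (Pi.single i 1) = fderiv ℝ H p (Pi.single l.succ 1) := by
    intro p
    rw [Finset.sum_eq_single l.succ]
    · rw [hV']
      simp only [if_true]
    · intro i _ hi
      rw [hV']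
      simp only [if_neg hi]
      rfl
    · simp
  have h := integral_divergence_of_hasFDerivAt_off_countable' (0 : Fin (n + 1) → ℝ) 1
    (by simp) V V' ∅ countable_empty
    (fun i p _ => (hVd i p).continuousAt.continuousWithinAt) (fun x _ i => hVd i x) (by
      simp only [hsum]
      exact hcd.continuousOn.integrableOn_compact isCompact_Icc)
  simp only [hsum] at h
  rw [h]
  refine Finset.sum_eq_zero fun i _ => ?_
  by_cases hi : i = l.succ
  · subst hi
    have e : ∀ x : Fin n → ℝ, V l.succ (l.succ.insertNth 1 x) = V l.succ (l.succ.insertNth 0 x) := by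
      intro x
      rw [hV]
      simp only [if_true]
      rw [insertNth_eq, hp]
    have h1 : ((1 : Fin (n + 1) → ℝ) l.succ) = 1 := rfl
    have h0 : ((0 : Fin (n + 1) → ℝ) l.succ) = 0 := rfl
    rw [h1, h0]
    simp only [e, sub_self]
  · rw [hV]
    simp [hi]

end div

variable {k r : ℕ} (A : Par k r)

/-- the regulator of `alpha` on the member with parameter `s` -/
noncomputable def Par.RR (s : ℝ) : ℝ :=
  ∑ j, ((A.nn j : ℝ) / ((∑ t, A.vv j t ^ 2 : ℤ) : ℝ)) * ∑ t : Fin (k + 2),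
      ((-1) ^ (t : ℕ) * (A.vv j t : ℝ)) *
        ∫ x in Icc (0 : Fin (k + 2) → ℝ) 1,
          frm (fc s (A.M j)) (fun l => fc s (A.X (t.succAbove l))) x

theorem im_grow {d : ℕ} (g : (Fin d → ℝ) → ℂ) (y : Fin (d + 1) → ℝ) (i : Fin d) :
    (grow g y i.succ).im = (lw g i (tl d y)).im := by
  rw [grow_succ]
  simp

theorem Par.Lam_re (g : (Fin (k + 2) → ℝ) → ℂ) (y : Fin (k + 3) → ℝ) :
    (A.Lam (grow g y)).re = Real.log ‖g (tl (k + 2) y)‖ +
      A.h / (2 * Real.pi) * ∑ l, A.q l * (lw g l.succ (tl (k + 2) y)).im := by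
  unfold Par.Lam
  rw [Complex.sub_re, Complex.re_sum, grow_zero, Complex.ofReal_re, sub_eq_add_neg,
    ← Finset.sum_neg_distrib, Finset.mul_sum]
  congr 1
  refine Finset.sum_congr rfl fun l _ => ?_
  rw [grow_succ]
  have hpi : (Real.pi : ℂ) ≠ 0 := by exact_mod_cast Real.pi_ne_zero
  have e : ((-(A.h * A.q l) : ℝ) : ℂ) / (2 * Real.pi * Complex.I) *
      (((y 0 * (lw g l.succ (tl (k + 2) y)).re : ℝ) : ℂ) +
        Complex.I * ((lw g l.succ (tl (k + 2) y)).im : ℝ)) =
      ((-(A.h / (2 * Real.pi) * (A.q l * (lw g l.succ (tl (k + 2) y)).im)) : ℝ) : ℂ) +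
      ((A.h / (2 * Real.pi) * (A.q l * (y 0 * (lw g l.succ (tl (k + 2) y)).re)) : ℝ) : ℂ) *
        Complex.I := by
    push_cast
    field_simp
    ring_nf
    rw [Complex.I_sq]
    ring
  rw [e, Complex.add_re, Complex.ofReal_re, Complex.re_ofReal_mul, Complex.I_re]
  ring

section ok

variable {A} (hA : A.Ok)

include hA

theorem Par.Ok.RR_sub : A.RR 0 - A.RR 1 = 1 / 2 * (2 * Real.pi) ^ (k + 1) * (A.κ * Real.pi) *
    ∫ y in Icc (0 : Fin (k + 3) → ℝ) 1,
      Real.sin (Real.pi * y 1) * (A.Lam (grow A.yy y)).re := by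
  have hcont : ∀ j (t : Fin (k + 2)), Continuous fun y : Fin (k + 3) → ℝ =>
      (Matrix.of (rws (A.M j) (fun l => A.X (t.succAbove l)) y)).det := by
    intro j t
    refine Continuous.matrix_det (continuous_pi fun l => ?_)
    refine Fin.cases ?_ (fun l => ?_) l
    · exact continuous_grow (hA.good_M j)
    · refine Fin.cases ?_ (fun l => ?_) l
      · exact continuous_grow (hA.good_om_M j)
      · exact continuous_grow (hA.good_X _)
  have h1 : A.RR 0 - A.RR 1 = ((-Complex.I) ^ (k + 1) * Complex.I *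
      ∑ j, ((A.nn j : ℂ) / ((∑ t, A.vv j t ^ 2 : ℤ) : ℂ)) * ∑ t : Fin (k + 2),
      ((-1) ^ (t : ℕ) * (A.vv j t : ℂ)) * ∫ y in Icc (0 : Fin (k + 3) → ℝ) 1,
        (Matrix.of (rws (A.M j) (fun l => A.X (t.succAbove l)) y)).det).re := by
    unfold Par.RR
    rw [← Finset.sum_sub_distrib, Finset.mul_sum, Complex.re_sum]
    refine Finset.sum_congr rfl fun j _ => ?_
    rw [← mul_sub, ← Finset.sum_sub_distrib]
    have h2 : ((-Complex.I) ^ (k + 1) * Complex.I *
        (((A.nn j : ℂ) / ((∑ t, A.vv j t ^ 2 : ℤ) : ℂ)) * ∑ t : Fin (k + 2),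
      ((-1) ^ (t : ℕ) * (A.vv j t : ℂ)) * ∫ y in Icc (0 : Fin (k + 3) → ℝ) 1,
        (Matrix.of (rws (A.M j) (fun l => A.X (t.succAbove l)) y)).det)) =
        (((A.nn j : ℝ) / ((∑ t, A.vv j t ^ 2 : ℤ) : ℝ) : ℝ) : ℂ) * ∑ t : Fin (k + 2),
        (((-1) ^ (t : ℕ) * (A.vv j t : ℝ) : ℝ) : ℂ) * ((-Complex.I) ^ (k + 1) * Complex.I *
        ∫ y in Icc (0 : Fin (k + 3) → ℝ) 1,
        (Matrix.of (rws (A.M j) (fun l => A.X (t.succAbove l)) y)).det) := by
      rw [mul_left_comm, Finset.mul_sum]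
      push_cast
      congr 1
      refine Finset.sum_congr rfl fun t _ => ?_
      ring
    rw [h2, Complex.re_ofReal_mul, Complex.re_sum]
    congr 1
    refine Finset.sum_congr rfl fun t _ => ?_
    rw [Complex.re_ofReal_mul, ← mul_sub]
    congr 1
    exact ((hA.fam j t).stokes).symm
  have h3 : (∑ j, ((A.nn j : ℂ) / ((∑ t, A.vv j t ^ 2 : ℤ) : ℂ)) * ∑ t : Fin (k + 2),
      ((-1) ^ (t : ℕ) * (A.vv j t : ℂ)) * ∫ y in Icc (0 : Fin (k + 3) → ℝ) 1,
        (Matrix.of (rws (A.M j) (fun l => A.X (t.succAbove l)) y)).det) =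
      ∫ y in Icc (0 : Fin (k + 3) → ℝ) 1,
      ∑ j, ((A.nn j : ℂ) / ((∑ t, A.vv j t ^ 2 : ℤ) : ℂ)) * ∑ t : Fin (k + 2),
      ((-1) ^ (t : ℕ) * (A.vv j t : ℂ)) *
        (Matrix.of (rws (A.M j) (fun l => A.X (t.succAbove l)) y)).det := by
    rw [integral_finsetSum]
    · refine Finset.sum_congr rfl fun j _ => ?_
      rw [integral_const_mul, integral_finsetSum]
      · congr 1
        exact Finset.sum_congr rfl fun t _ => (integral_const_mul _ _).symm
      · intro t _
        exact (continuous_const.mul (hcont j t)).continuousOn.integrableOn_compact isCompact_Icc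
    · intro j _
      exact (continuous_const.mul (continuous_finsetSum _ fun t _ =>
        continuous_const.mul (hcont j t))).continuousOn.integrableOn_compact isCompact_Icc
  rw [h1, h3, ← integral_const_mul, ← integral_const_mul]
  have h4 : ∀ y : Fin (k + 3) → ℝ, 1 / 2 * (2 * Real.pi) ^ (k + 1) * (A.κ * Real.pi) *
        (Real.sin (Real.pi * y 1) * (A.Lam (grow A.yy y)).re) = Complex.reCLM
        ((-Complex.I) ^ (k + 1) * Complex.I *
      ∑ j, ((A.nn j : ℂ) / ((∑ t, A.vv j t ^ 2 : ℤ) : ℂ)) * ∑ t : Fin (k + 2),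
      ((-1) ^ (t : ℕ) * (A.vv j t : ℂ)) *
        (Matrix.of (rws (A.M j) (fun l => A.X (t.succAbove l)) y)).det) := fun y =>
    (hA.sum_det_re y).symm
  simp only [h4]
  rw [ContinuousLinearMap.integral_comp_comm]
  · rfl
  · exact (continuous_const.mul (continuous_finsetSum _ fun j _ =>
      continuous_const.mul (continuous_finsetSum _ fun t _ =>
        continuous_const.mul (hcont j t)))).continuousOn.integrableOn_compact isCompact_Icc

end ok

end Pool.Agent.Helper90.HT
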