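import Pool.Agent.Helper90.HT.Pos
set_option autoImplicit false

/-!
The sign of the difference of the regulators of the two end members.
-/

namespace Pool.Agent.Helper90.HT

open MeasureTheory Set Filter Pool.Agent.TH826.MK Pool.Agent.W367.KT Pool.Agent.Helper90.HB

section log

variable {d : ℕ} {g : (Fin d → ℝ) → ℂ}

theorem hasFDerivAt_imlog (hg : ContDiff ℝ 2 g) (hs : ∀ p, g p ∈ Complex.slitPlane)
    (p : Fin d → ℝ) : HasFDerivAt (fun p => (Complex.log (g p)).im)
      (Complex.imCLM.comp ((g p)⁻¹ • fderiv ℝ g p)) p := by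
  have h1 : HasFDerivAt g (fderiv ℝ g p) p := ((hg.differentiable (by norm_num)) p).hasFDerivAt
  have h2 := (Complex.hasStrictFDerivAt_log_real (hs p)).hasFDerivAt.comp p h1
  have h3 := Complex.imCLM.hasFDerivAt.comp p h2
  refine h3.congr_fderiv ?_
  ext v
  simp

theorem imlog_single (g : (Fin d → ℝ) → ℂ) (p : Fin d → ℝ) (i : Fin d) :
    (Complex.imCLM.comp ((g p)⁻¹ • fderiv ℝ g p)) (Pi.single i 1) = (lw g i p).im := by
  unfold lw
  rw [div_eq_inv_mul]
  rfl

end log

variable {k r : ℕ} (A : Par k r)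

/-- the degree of the monomial in the direction `q` -/
def Par.dd (j : Fin r) : ℤ := ∑ l, A.v j l * A.q l

/-- the sign of the degree -/
def Par.sg (j : Fin r) : ℤ := if 0 < A.dd j then 1 else -1

/-- the monomial or its inverse -/
noncomputable def Par.mt (j : Fin r) (p : Fin (k + 2) → ℝ) : ℂ :=
  if 0 < A.dd j then A.mm j p else (A.mm j p)⁻¹

/-- the argument -/
noncomputable def Par.GG (p : Fin (k + 2) → ℝ) : ℝ :=
  2 * (Complex.log (A.rr p + 1)).im - ∑ j, (2 * (A.n j : ℝ)) * (Complex.log (1 - A.mt j p)).im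

section ok

variable {A} (hA : A.Ok)

include hA

theorem Par.Ok.norm_mt (j : Fin r) (p : Fin (k + 2) → ℝ) : ‖A.mt j p‖ < 1 := by
  have hq := hA.hq j
  have hh := hA.hh
  unfold Par.mt
  split_ifs with h
  · rw [hA.norm_mm, Real.exp_lt_one_iff, neg_lt_zero]
    have : (0 : ℝ) < ((∑ l, A.v j l * A.q l : ℤ) : ℝ) := by exact_mod_cast h
    positivity
  · rw [norm_inv, hA.norm_mm, ← Real.exp_neg, neg_neg, Real.exp_lt_one_iff]
    have h1 : A.dd j < 0 := lt_of_le_of_ne (not_lt.1 h) hq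
    have : ((∑ l, A.v j l * A.q l : ℤ) : ℝ) < 0 := by exact_mod_cast h1
    exact mul_neg_of_pos_of_neg hh this

theorem Par.Ok.one_sub_mt (j : Fin r) (p : Fin (k + 2) → ℝ) :
    1 - A.mt j p ∈ Complex.slitPlane := by
  left
  have h1 := hA.norm_mt j p
  have h2 := Complex.re_le_norm (A.mt j p)
  simp only [Complex.sub_re, Complex.one_re]
  linarith

theorem Par.Ok.contDiff_mt (j : Fin r) : ContDiff ℝ 2 (A.mt j) := by
  unfold Par.mt
  split_ifs with h
  · exact (hA.good_mm j).smooth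
  · exact (good_inv (hA.good_mm j)).smooth

omit hA in
theorem Par.per_mt (j : Fin r) (i : Fin (k + 1)) : PerI i.succ (A.mt j) := by
  intro p
  unfold Par.mt Par.mm
  rw [A.per_ex _ _ i p]

theorem Par.Ok.good_one_sub_mt (j : Fin r) : Good fun p => 1 - A.mt j p :=
  ⟨contDiff_const.sub (hA.contDiff_mt j), fun p => Complex.slitPlane_ne_zero (hA.one_sub_mt j p)⟩

/-- the row of `c` -/
theorem Par.Ok.grow_cc (y : Fin (k + 3) → ℝ) : grow A.cc y =
    ∑ j, (A.n j : ℂ) • ((2 : ℂ) • grow (om (A.mm j)) y - grow (A.mm j) y) := by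
  unfold Par.cc
  rw [grow_prod Finset.univ (fun j p => ((1 - A.mm j p) * (1 - (A.mm j p)⁻¹)) ^ A.n j)
    hA.good_fac]
  refine Finset.sum_congr rfl fun j _ => ?_
  rw [← grow_fac (hA.good_mm j) (hA.good_om_mm j)]
  exact grow_pow ((hA.good_om_mm j).mul (hA.good_om_inv j)) _ _

theorem Par.Ok.grow_mt (j : Fin r) (y : Fin (k + 3) → ℝ) :
    (2 : ℂ) • grow (om (A.mm j)) y - grow (A.mm j) y =
      (2 : ℂ) • grow (fun p => 1 - A.mt j p) y - (A.sg j : ℂ) • grow (A.mm j) y := by
  unfold Par.mt Par.sg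
  split_ifs with h
  · rw [Int.cast_one, one_smul]
    rfl
  · have e : (fun p => 1 - (A.mm j p)⁻¹) = fun p => ((-1 : ℂ) * om (A.mm j) p) * (A.mm j p)⁻¹ := by
      funext p
      have := (hA.good_mm j).ne_zero p
      unfold om
      field_simp
      ring
    rw [e, grow_mul ((good_const (by norm_num)).mul (hA.good_om_mm j)) (good_inv (hA.good_mm j)),
      grow_mul (good_const (by norm_num)) (hA.good_om_mm j), grow_const_one (by simp),
      grow_inv (hA.good_mm j)]
    push_cast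
    module

omit hA in
theorem Par.grow_tt (y : Fin (k + 3) → ℝ) : grow A.tt y = -grow A.TT y := by
  have h1 := grow_mul (good_TT (A := A)) (good_tt (A := A)) y
  have h2 : (fun p => A.TT p * A.tt p) = fun _ => (-1 : ℂ) := funext fun p => TT_mul_tt p
  rw [h2, grow_const_one (by simp)] at h1
  exact (neg_eq_of_add_eq_zero_right h1.symm).symm

theorem Par.Ok.grow_yy (y : Fin (k + 3) → ℝ) : grow A.yy y =
    (2 : ℂ) • grow (fun p => A.rr p + 1) y - (grow (fun _ => (4 : ℂ)) y + grow A.cc y +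
      grow A.tt y) := by
  have e : A.yy = fun p => ((A.rr p + 1) * (A.rr p + 1)) * ((4 * A.cc p) * A.tt p)⁻¹ := by
    funext p
    unfold Par.yy
    rw [← hA.rr_add_mul]
    have h1 := hA.rr_sub_ne p
    have h2 : A.rr p + 1 ≠ 0 := hA.good_rr_add.ne_zero p
    field_simp
  rw [e, grow_mul (hA.good_rr_add.mul hA.good_rr_add)
    (good_inv (((good_const (by norm_num)).mul hA.good_cc).mul good_tt)),
    grow_mul hA.good_rr_add hA.good_rr_add,
    grow_inv (((good_const (by norm_num)).mul hA.good_cc).mul good_tt),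
    grow_mul ((good_const (by norm_num)).mul hA.good_cc) good_tt,
    grow_mul (good_const (by norm_num)) hA.good_cc]
  module

theorem Par.Ok.im_grow_mm (j : Fin r) (y : Fin (k + 3) → ℝ) (l : Fin (k + 1)) :
    (grow (A.mm j) y l.succ.succ).im = 2 * Real.pi * A.v j l := by
  unfold Par.mm
  rw [A.grow_ex (hA.hc j), Finset.sum_apply, Finset.sum_eq_single l]
  · unfold Par.B
    simp only [Pi.smul_apply, Pi.add_apply, Pi.single_eq_same]
    rw [Pi.single_eq_of_ne (Fin.succ_ne_zero _)]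
    simp
    ring
  · intro m _ hm
    unfold Par.B
    simp only [Pi.smul_apply, Pi.add_apply]
    rw [Pi.single_eq_of_ne (Fin.succ_ne_zero _), Pi.single_eq_of_ne]
    · simp
    · exact fun e => hm (Fin.succ_injective _ (Fin.succ_injective _ e)).symm
  · simp

theorem Par.Ok.im_lw_yy (p : Fin (k + 2) → ℝ) (l : Fin (k + 1)) :
    (lw A.yy l.succ p).im = 2 * (lw (fun p => A.rr p + 1) l.succ p).im -
      ∑ j, (2 * (A.n j : ℝ)) * (lw (fun p => 1 - A.mt j p) l.succ p).im +
      2 * Real.pi * ∑ j, (A.n j : ℝ) * (A.sg j * A.v j l) := by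
  set y : Fin (k + 3) → ℝ := Fin.cons 0 p with hy
  have ht : tl (k + 2) y = p := by
    funext i
    rw [tl_apply, hy, Fin.cons_succ]
  have hg : ∀ g : (Fin (k + 2) → ℝ) → ℂ, (lw g l.succ p).im = (grow g y l.succ.succ).im := by
    intro g
    rw [im_grow, ht]
  rw [hg, hg, hA.grow_yy, hA.grow_cc, A.grow_tt, A.grow_TT, grow_const]
  have h1 : (l.succ.succ : Fin (k + 3)) ≠ 1 := by
    intro e
    have e' : (1 : Fin (k + 3)) = Fin.succ 0 := rfl
    rw [e'] at e
    exact Fin.succ_ne_zero _ (Fin.succ_injective _ e)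
  simp only [Pi.sub_apply, Pi.add_apply, Pi.smul_apply, Pi.neg_apply, Finset.sum_apply]
  rw [Pi.single_eq_of_ne (Fin.succ_ne_zero _), Pi.single_eq_of_ne h1]
  simp only [zero_add, neg_zero, add_zero, Complex.sub_im, Complex.im_sum, smul_eq_mul]
  have h2 : ∀ j, ((A.n j : ℂ) * (2 * grow (om (A.mm j)) y l.succ.succ -
      grow (A.mm j) y l.succ.succ)).im =
      2 * (A.n j : ℝ) * (lw (fun p => 1 - A.mt j p) l.succ p).im -
        (A.n j : ℝ) * (A.sg j * (2 * Real.pi * A.v j l)) := by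
    intro j
    have h3 := congrFun (hA.grow_mt j y) l.succ.succ
    simp only [Pi.sub_apply, Pi.smul_apply, smul_eq_mul] at h3
    rw [h3, hg, ← hA.im_grow_mm j y l]
    have e1 : ((A.n j : ℂ)) = ((A.n j : ℝ) : ℂ) := by push_cast; rfl
    have e2 : ((A.sg j : ℂ)) = ((A.sg j : ℝ) : ℂ) := by push_cast; rfl
    have e3 : (2 : ℂ) = ((2 : ℝ) : ℂ) := by push_cast; rfl
    rw [e1, e2, e3, Complex.im_ofReal_mul, Complex.sub_im, Complex.im_ofReal_mul,
      Complex.im_ofReal_mul]
    ring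
  rw [Finset.sum_congr rfl fun j _ => h2 j, Finset.sum_sub_distrib]
  have e3 : (2 : ℂ) = ((2 : ℝ) : ℂ) := by push_cast; rfl
  rw [e3, Complex.im_ofReal_mul, Finset.mul_sum]
  have h4 : ∑ j, 2 * Real.pi * ((A.n j : ℝ) * (A.sg j * A.v j l)) =
      ∑ j, (A.n j : ℝ) * (A.sg j * (2 * Real.pi * A.v j l)) :=
    Finset.sum_congr rfl fun j _ => by ring
  rw [h4]
  ring

theorem Par.Ok.hasFDerivAt_GG (p : Fin (k + 2) → ℝ) : HasFDerivAt A.GG
    ((2 : ℝ) • (Complex.imCLM.comp ((A.rr p + 1)⁻¹ • fderiv ℝ (fun p => A.rr p + 1) p)) -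
      ∑ j, (2 * (A.n j : ℝ)) • (Complex.imCLM.comp ((1 - A.mt j p)⁻¹ •
        fderiv ℝ (fun p => 1 - A.mt j p) p))) p := by
  unfold Par.GG
  refine HasFDerivAt.sub ?_ ?_
  · exact (hasFDerivAt_imlog hA.good_rr_add.smooth hA.rr_add_slit p).const_mul 2
  · exact HasFDerivAt.fun_sum fun j _ =>
      (hasFDerivAt_imlog (hA.good_one_sub_mt j).smooth (hA.one_sub_mt j) p).const_mul _

theorem Par.Ok.fderiv_GG (p : Fin (k + 2) → ℝ) (l : Fin (k + 1)) :
    fderiv ℝ A.GG p (Pi.single l.succ 1) = 2 * (lw (fun p => A.rr p + 1) l.succ p).im -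
      ∑ j, (2 * (A.n j : ℝ)) * (lw (fun p => 1 - A.mt j p) l.succ p).im := by
  rw [(hA.hasFDerivAt_GG p).fderiv, sub_apply, smul_apply, sum_apply]
  have h1 : (Complex.imCLM.comp ((A.rr p + 1)⁻¹ • fderiv ℝ (fun p => A.rr p + 1) p))
      (Pi.single l.succ 1) = (lw (fun p => A.rr p + 1) l.succ p).im :=
    imlog_single (fun p => A.rr p + 1) p l.succ
  rw [h1]
  congr 1
  refine Finset.sum_congr rfl fun j _ => ?_
  rw [smul_apply]
  have h2 : (Complex.imCLM.comp ((1 - A.mt j p)⁻¹ • fderiv ℝ (fun p => 1 - A.mt j p) p))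
      (Pi.single l.succ 1) = (lw (fun p => 1 - A.mt j p) l.succ p).im :=
    imlog_single (fun p => 1 - A.mt j p) p l.succ
  rw [h2]
  rfl

theorem Par.Ok.contDiff_GG : ContDiff ℝ 2 A.GG := by
  unfold Par.GG
  refine ContDiff.sub (contDiff_const.mul ?_) (ContDiff.sum fun j _ => contDiff_const.mul ?_)
  · exact Complex.imCLM.contDiff.comp (contDiff_log hA.good_rr_add.smooth hA.rr_add_slit)
  · exact Complex.imCLM.contDiff.comp
      (contDiff_log (hA.good_one_sub_mt j).smooth (hA.one_sub_mt j))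

omit hA in
theorem Par.per_GG (p : Fin (k + 2) → ℝ) (i : Fin (k + 1)) :
    A.GG (p + Pi.single i.succ 1) = A.GG p := by
  unfold Par.GG
  rw [A.per_rr i p]
  simp only [A.per_mt _ i p]

omit hA in
theorem Par.sg_mul_dd (j : Fin r) : (A.sg j : ℝ) * A.dd j = |(A.dd j : ℝ)| := by
  unfold Par.sg
  split_ifs with h
  · rw [abs_of_pos (by exact_mod_cast h)]
    push_cast
    ring
  · rw [abs_of_nonpos (by exact_mod_cast not_lt.1 h)]
    push_cast
    ring

/-- the real part -/
theorem Par.Ok.Lam_yy (y : Fin (k + 3) → ℝ) : (A.Lam (grow A.yy y)).re =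
    (Real.log ‖A.yy (tl (k + 2) y)‖ + A.h * ∑ j, (A.n j : ℝ) * |(A.dd j : ℝ)|) +
      A.h / (2 * Real.pi) * ∑ l : Fin (k + 1), (A.q l : ℝ) *
        fderiv ℝ A.GG (tl (k + 2) y) (Pi.single l.succ 1) := by
  rw [A.Lam_re, add_assoc (Real.log ‖A.yy (tl (k + 2) y)‖)]
  congr 1
  have h1 : ∀ l : Fin (k + 1), (A.q l : ℝ) * (lw A.yy l.succ (tl (k + 2) y)).im =
      (A.q l : ℝ) * fderiv ℝ A.GG (tl (k + 2) y) (Pi.single l.succ 1) +
      (A.q l : ℝ) * (2 * Real.pi * ∑ j, (A.n j : ℝ) * (A.sg j * A.v j l)) := by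
    intro l
    rw [hA.im_lw_yy, hA.fderiv_GG]
    ring
  rw [Finset.sum_congr rfl fun l _ => h1 l, Finset.sum_add_distrib, mul_add, add_comm]
  congr 1
  have h2 : ∑ l : Fin (k + 1), (A.q l : ℝ) * (2 * Real.pi * ∑ j, (A.n j : ℝ) *
      (A.sg j * A.v j l)) = 2 * Real.pi * ∑ j, (A.n j : ℝ) * |(A.dd j : ℝ)| := by
    have h3 : ∀ j, (A.n j : ℝ) * |(A.dd j : ℝ)| = ∑ l, (A.n j : ℝ) * (A.sg j * (A.v j l *
        A.q l)) := by
      intro j
      rw [← Par.sg_mul_dd]
      unfold Par.dd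
      push_cast
      simp only [Finset.mul_sum]
    simp only [h3]
    rw [Finset.sum_comm, Finset.mul_sum]
    refine Finset.sum_congr rfl fun l _ => ?_
    rw [Finset.mul_sum, Finset.mul_sum, Finset.mul_sum]
    exact Finset.sum_congr rfl fun j _ => by ring
  rw [h2]
  have := Real.pi_ne_zero
  field_simp

theorem Par.Ok.integral_pos : 0 < ∫ y in Icc (0 : Fin (k + 3) → ℝ) 1,
      Real.sin (Real.pi * y 1) * (A.Lam (grow A.yy y)).re := by
  set S : ℝ := A.h * ∑ j, (A.n j : ℝ) * |(A.dd j : ℝ)| with hS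
  have hS0 : 0 ≤ S := mul_nonneg hA.hh.le (Finset.sum_nonneg fun j _ => by positivity)
  have hsinc : ContDiff ℝ 2 fun p : Fin (k + 2) → ℝ => Real.sin (Real.pi * p 0) :=
    Real.contDiff_sin.comp (contDiff_const.mul (contDiff_apply ℝ ℝ 0))
  have hfd : Continuous fun p : Fin (k + 2) → ℝ => fderiv ℝ A.GG p :=
    hA.contDiff_GG.continuous_fderiv (by norm_num)
  have hlog : Continuous fun p : Fin (k + 2) → ℝ => Real.log ‖A.yy p‖ :=
    (hA.good_yy.smooth.continuous.norm).log fun p => norm_ne_zero_iff.2 (hA.good_yy.ne_zero p)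
  have h1 : ∫ y in Icc (0 : Fin (k + 3) → ℝ) 1,
      Real.sin (Real.pi * y 1) * (A.Lam (grow A.yy y)).re =
      ∫ p in Icc (0 : Fin (k + 2) → ℝ) 1, (Real.sin (Real.pi * p 0) *
        (Real.log ‖A.yy p‖ + S) + A.h / (2 * Real.pi) * ∑ l : Fin (k + 1), (A.q l : ℝ) *
        (Real.sin (Real.pi * p 0) * fderiv ℝ A.GG p (Pi.single l.succ 1))) := by
    refine Eq.trans ?_ (integral_tl (n := k + 2) fun p => (Real.sin (Real.pi * p 0) *
        (Real.log ‖A.yy p‖ + S) + A.h / (2 * Real.pi) * ∑ l : Fin (k + 1), (A.q l : ℝ) *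
        (Real.sin (Real.pi * p 0) * fderiv ℝ A.GG p (Pi.single l.succ 1))))
    refine integral_congr_ae (Eventually.of_forall fun y => ?_)
    simp only []
    rw [hA.Lam_yy y, ← hS, mul_add]
    have e2 : tl (k + 2) y 0 = y 1 := rfl
    rw [e2]
    congr 1
    rw [mul_left_comm, Finset.mul_sum]
    congr 1
    refine Finset.sum_congr rfl fun l _ => ?_
    ring
  have hc1 : Continuous fun p : Fin (k + 2) → ℝ => Real.sin (Real.pi * p 0) *
        (Real.log ‖A.yy p‖ + S) := hsinc.continuous.mul (hlog.add continuous_const)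
  have hc2 : ∀ l : Fin (k + 1), Continuous fun p : Fin (k + 2) → ℝ =>
      Real.sin (Real.pi * p 0) * fderiv ℝ A.GG p (Pi.single l.succ 1) := fun l =>
    hsinc.continuous.mul (hfd.clm_apply continuous_const)
  have hper : ∀ l : Fin (k + 1), ∫ p in Icc (0 : Fin (k + 2) → ℝ) 1,
      Real.sin (Real.pi * p 0) * fderiv ℝ A.GG p (Pi.single l.succ 1) = 0 := by
    intro l
    have hH : ContDiff ℝ 1 fun p : Fin (k + 2) → ℝ => Real.sin (Real.pi * p 0) * A.GG p :=
      (hsinc.mul hA.contDiff_GG).of_le (by norm_num)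
    have h2 := integral_fderiv_per l hH fun p => by
      rw [A.per_GG, zero_add_single]
    rw [← h2]
    refine integral_congr_ae (Eventually.of_forall fun p => ?_)
    simp only []
    have h3 : HasFDerivAt (fun p : Fin (k + 2) → ℝ => Real.sin (Real.pi * p 0))
        (((Real.cos (Real.pi * p 0)) * Real.pi) •
          (ContinuousLinearMap.proj (R := ℝ) (φ := fun _ => ℝ) 0)) p := by
      have h4 : HasDerivAt (fun s : ℝ => Real.sin (Real.pi * s))
          ((Real.cos (Real.pi * p 0)) * Real.pi) (p 0) := by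
        have h5 : HasDerivAt (fun s : ℝ => Real.pi * s) Real.pi (p 0) := by
          simpa using (hasDerivAt_id (p 0)).const_mul Real.pi
        exact h5.sin
      have h6 : HasFDerivAt (fun p : Fin (k + 2) → ℝ => p 0)
          (ContinuousLinearMap.proj (R := ℝ) (φ := fun _ => ℝ) 0) p :=
        (ContinuousLinearMap.proj (R := ℝ) (φ := fun _ => ℝ) 0).hasFDerivAt
      exact HasDerivAt.comp_hasFDerivAt (f := fun p : Fin (k + 2) → ℝ => p 0) p h4 h6
    have h4 := h3.mul ((hA.contDiff_GG.differentiable (by norm_num) p).hasFDerivAt)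
    have h5 : fderiv ℝ (fun p : Fin (k + 2) → ℝ => Real.sin (Real.pi * p 0) * A.GG p) p = _ :=
      h4.fderiv
    rw [h5]
    simp [Fin.succ_ne_zero]
  have h2 : ∫ p in Icc (0 : Fin (k + 2) → ℝ) 1, (Real.sin (Real.pi * p 0) *
        (Real.log ‖A.yy p‖ + S) + A.h / (2 * Real.pi) * ∑ l : Fin (k + 1), (A.q l : ℝ) *
        (Real.sin (Real.pi * p 0) * fderiv ℝ A.GG p (Pi.single l.succ 1))) =
      ∫ p in Icc (0 : Fin (k + 2) → ℝ) 1, Real.sin (Real.pi * p 0) *
        (Real.log ‖A.yy p‖ + S) := by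
    rw [integral_add, integral_const_mul, integral_finsetSum]
    · have h3 : ∀ l : Fin (k + 1), ∫ p in Icc (0 : Fin (k + 2) → ℝ) 1, (A.q l : ℝ) *
        (Real.sin (Real.pi * p 0) * fderiv ℝ A.GG p (Pi.single l.succ 1)) = 0 := fun l => by
        rw [integral_const_mul, hper, mul_zero]
      rw [Finset.sum_congr rfl fun l _ => h3 l]
      simp
    · intro l _
      exact (continuous_const.mul (hc2 l)).continuousOn.integrableOn_compact isCompact_Icc
    · exact hc1.continuousOn.integrableOn_compact isCompact_Icc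
    · exact (continuous_const.mul (continuous_finsetSum _ fun l _ =>
        continuous_const.mul (hc2 l))).continuousOn.integrableOn_compact isCompact_Icc
  rw [h1, h2]
  have hlogpos : ∀ p, 0 < Real.log ‖A.yy p‖ + S := fun p =>
    add_pos_of_pos_of_nonneg (Real.log_pos (hA.norm_yy p)) hS0
  rw [setIntegral_pos_iff_support_of_nonneg_ae _
    (hc1.continuousOn.integrableOn_compact isCompact_Icc)]
  · have hsub : (pi univ fun _ : Fin (k + 2) => Ioo (0 : ℝ) 1) ⊆ Function.support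
        (fun p : Fin (k + 2) → ℝ => Real.sin (Real.pi * p 0) *
        (Real.log ‖A.yy p‖ + S)) ∩ Icc (0 : Fin (k + 2) → ℝ) 1 := by
      intro y hy
      rw [mem_univ_pi] at hy
      refine ⟨?_, fun i => (hy i).1.le, fun i => (hy i).2.le⟩
      rw [Function.mem_support]
      refine (mul_pos (Real.sin_pos_of_mem_Ioo ?_) (hlogpos y)).ne'
      have h8 := (hy 0).1
      have h9 := (hy 0).2
      have hpi := Real.pi_pos
      constructor
      · positivity
      · nlinarith
    refine lt_of_lt_of_le ?_ (measure_mono hsub)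
    refine IsOpen.measure_pos _ (isOpen_set_pi finite_univ fun _ _ => isOpen_Ioo) ?_
    refine ⟨fun _ => 1 / 2, ?_⟩
    rw [mem_univ_pi]
    intro i
    constructor <;> norm_num
  · rw [EventuallyLE, ae_restrict_iff' measurableSet_Icc]
    refine Eventually.of_forall fun y hy => mul_nonneg (Real.sin_nonneg_of_mem_Icc ?_)
      (hlogpos y).le
    have h8 : 0 ≤ y 0 := hy.1 0
    have h9 : y 0 ≤ 1 := hy.2 0
    have hpi := Real.pi_pos
    constructor
    · positivity
    · nlinarith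

end ok

end Pool.Agent.Helper90.HT
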