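import Pool.Agent.Helper90.HB.Van
set_option autoImplicit false

/-!
Stokes' theorem for the form of `{f}_2 ⊗ g_0 ∧ ... ∧ g_(n-1)` on a family of closed tori: the faces
in the direction of the parameter `s` of the family give the regulators of the two end members.
-/

namespace Pool.Agent.Helper90.HT

open MeasureTheory Set Pool.Agent.TH826.MK Pool.Agent.W367.KT Pool.Agent.Helper90.HB

section face

variable {n : ℕ}

/-- the member with parameter `s` of a family -/
def fc (s : ℝ) (g : (Fin (n + 1) → ℝ) → ℂ) : (Fin n → ℝ) → ℂ := fun θ => g (Fin.cons s θ)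

/-- the linear part of `θ ↦ (s, θ)` -/
noncomputable def cl0 (n : ℕ) : (Fin n → ℝ) →L[ℝ] (Fin (n + 1) → ℝ) :=
  ContinuousLinearMap.pi (Fin.cons 0 fun i => ContinuousLinearMap.proj i)

theorem cl0_apply (θ : Fin n → ℝ) : cl0 n θ = Fin.cons 0 θ := by
  funext j
  refine Fin.cases ?_ (fun j => ?_) j
  · simp [cl0]
  · simp [cl0]

theorem cons_eq (s : ℝ) (θ : Fin n → ℝ) :
    (Fin.cons s θ : Fin (n + 1) → ℝ) = cl0 n θ + Pi.single 0 s := by
  funext j
  rw [cl0_apply]
  refine Fin.cases ?_ (fun j => ?_) j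
  · simp
  · simp

theorem hasFDerivAt_cons (s : ℝ) (θ : Fin n → ℝ) :
    HasFDerivAt (fun θ : Fin n → ℝ => (Fin.cons s θ : Fin (n + 1) → ℝ)) (cl0 n) θ := by
  have h : (fun θ : Fin n → ℝ => (Fin.cons s θ : Fin (n + 1) → ℝ)) =
      fun θ => cl0 n θ + Pi.single 0 s := funext fun θ => cons_eq s θ
  rw [h]
  exact (cl0 n).hasFDerivAt.add_const _

theorem contDiff_cons (s : ℝ) :
    ContDiff ℝ 2 fun θ : Fin n → ℝ => (Fin.cons s θ : Fin (n + 1) → ℝ) := by
  have h : (fun θ : Fin n → ℝ => (Fin.cons s θ : Fin (n + 1) → ℝ)) =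
      fun θ => cl0 n θ + Pi.single 0 s := funext fun θ => cons_eq s θ
  rw [h]
  exact (cl0 n).contDiff.add contDiff_const

theorem cl0_single (i : Fin n) : cl0 n (Pi.single i 1) = Pi.single i.succ 1 := by
  rw [cl0_apply]
  funext j
  refine Fin.cases ?_ (fun j => ?_) j
  · simp [Fin.succ_ne_zero]
  · by_cases h : j = i
    · subst h; simp
    · rw [Fin.cons_succ, Pi.single_eq_of_ne h,
        Pi.single_eq_of_ne (fun e => h (Fin.succ_injective _ e))]

variable {g : (Fin (n + 1) → ℝ) → ℂ}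

theorem good_fc (hg : Good g) (s : ℝ) : Good (fc s g) :=
  ⟨hg.smooth.comp (contDiff_cons s), fun _ => hg.ne_zero _⟩

theorem lw_fc (hg : ContDiff ℝ 2 g) (s : ℝ) (i : Fin n) (θ : Fin n → ℝ) :
    lw (fc s g) i θ = lw g i.succ (Fin.cons s θ) := by
  have h1 : HasFDerivAt g (fderiv ℝ g (Fin.cons s θ)) (Fin.cons s θ) :=
    ((hg.differentiable (by norm_num)) _).hasFDerivAt
  have h2 : HasFDerivAt (fc s g) ((fderiv ℝ g (Fin.cons s θ)).comp (cl0 n)) θ :=
    HasFDerivAt.comp θ h1 (hasFDerivAt_cons s θ)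
  unfold lw
  rw [h2.fderiv, ContinuousLinearMap.comp_apply, cl0_single]
  rfl

theorem om_fc (s : ℝ) : om (fc s g) = fc s (om g) := rfl

theorem succAbove_one_zero : (1 : Fin (n + 2)).succAbove 0 = 0 := by
  rw [Fin.succAbove_of_castSucc_lt]
  · rfl
  · simp

theorem succAbove_one_succ (j : Fin n) : (1 : Fin (n + 2)).succAbove j.succ = j.succ.succ := by
  rw [Fin.succAbove_of_lt_succ]
  simp [Fin.lt_def]

theorem tl_insertNth (s : ℝ) (x : Fin (n + 1) → ℝ) :
    tl (n + 1) (Fin.insertNth 1 s x : Fin (n + 2) → ℝ) = Fin.cons s (tl n x) := by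
  funext j
  rw [tl_apply]
  refine Fin.cases ?_ (fun j => ?_) j
  · rw [Fin.cons_zero]
    exact Fin.insertNth_apply_same (α := fun _ => ℝ) 1 s x
  · rw [Fin.cons_succ, tl_apply]
    rw [← succAbove_one_succ]
    exact Fin.insertNth_apply_succAbove (α := fun _ => ℝ) 1 s x j.succ

theorem zero_insertNth (s : ℝ) (x : Fin (n + 1) → ℝ) :
    (Fin.insertNth 1 s x : Fin (n + 2) → ℝ) 0 = x 0 := by
  have h := Fin.insertNth_apply_succAbove (α := fun _ => ℝ) (1 : Fin (n + 2)) s x 0
  rwa [succAbove_one_zero] at h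

theorem grow_fc (hg : ContDiff ℝ 2 g) (s : ℝ) (x : Fin (n + 1) → ℝ) (j : Fin (n + 1)) :
    grow (fc s g) x j = grow g (Fin.insertNth 1 s x : Fin (n + 2) → ℝ)
      ((1 : Fin (n + 2)).succAbove j) := by
  refine Fin.cases ?_ (fun j => ?_) j
  · rw [succAbove_one_zero, grow_zero, grow_zero, tl_insertNth]
    rfl
  · rw [succAbove_one_succ, grow_succ, grow_succ, tl_insertNth, zero_insertNth, lw_fc hg]

theorem Pst_fc (hg : ContDiff ℝ 2 g) (s : ℝ) (x : Fin (n + 1) → ℝ) (j : Fin (n + 1)) :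
    Pst (fc s g) x j = Pst g (Fin.insertNth 1 s x : Fin (n + 2) → ℝ)
      ((1 : Fin (n + 2)).succAbove j) := by
  refine Fin.cases ?_ (fun j => ?_) j
  · rw [succAbove_one_zero]
    unfold Pst
    rw [Fin.cons_zero, Fin.cons_zero, tl_insertNth]
    rfl
  · rw [succAbove_one_succ, Pst_eq, Pst_eq, tl_insertNth, zero_insertNth]
    unfold lam
    rw [om_fc, lw_fc hg, lw_fc (contDiff_om hg)]
    rfl

end face

section stokes

variable {n : ℕ} {F : (Fin (n + 1) → ℝ) → ℂ} {g : Fin n → (Fin (n + 1) → ℝ) → ℂ}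

/-- a determinant whose first row is the second unit vector -/
theorem det_cons_single_one {n : ℕ} (G : Fin (n + 1) → Fin (n + 2) → ℂ) :
    (Matrix.of (Fin.cons (Pi.single 1 1) G : Fin (n + 2) → Fin (n + 2) → ℂ)).det =
      -(Matrix.of fun l i : Fin (n + 1) => G l ((1 : Fin (n + 2)).succAbove i)).det := by
  rw [Matrix.det_succ_row_zero, Finset.sum_eq_single 1]
  · rw [Matrix.of_apply, Fin.cons_zero, Pi.single_eq_same]
    simp only [Fin.val_one, pow_one, mul_one]
    rw [neg_one_mul]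
    rfl
  · intro j _ hj
    rw [Matrix.of_apply, Fin.cons_zero, Pi.single_eq_of_ne hj, mul_zero, zero_mul]
  · simp

/-- the hypotheses -/
structure Fam (F : (Fin (n + 1) → ℝ) → ℂ) (g : Fin n → (Fin (n + 1) → ℝ) → ℂ) : Prop where
  gF : Good F
  oF : ∀ p, om F p ≠ 0
  gg : ∀ l, Good (g l)
  pF : ∀ i : Fin n, PerI i.succ F
  pg : ∀ l (i : Fin n), PerI i.succ (g l)

variable (h : Fam F g)

/-- the rows -/
noncomputable def rws (F : (Fin (n + 1) → ℝ) → ℂ) (g : Fin n → (Fin (n + 1) → ℝ) → ℂ)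
    (y : Fin (n + 2) → ℝ) : Fin (n + 2) → Fin (n + 2) → ℂ :=
  Fin.cons (grow F y) (Fin.cons (grow (om F) y) fun l => grow (g l) y :
    Fin (n + 1) → Fin (n + 2) → ℂ)

include h in
theorem Fam.good_om : Good (om F) := ⟨contDiff_om h.gF.smooth, h.oF⟩

/-- the data of Stokes' theorem -/
noncomputable def Fam.sd (h : Fam F g) : SD (n + 1) where
  J := fun l y => rws F g y l
  J' := fun l y => Fin.cases (0 : (Fin (n + 2) → ℝ) →L[ℝ] (Fin (n + 2) → ℂ))
    (fun l => Fin.cases (0 : (Fin (n + 2) → ℝ) →L[ℝ] (Fin (n + 2) → ℂ))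
      (fun l => grow' (g l) y) l) l
  P := Pst F
  P' := Pst' F
  p := 0
  q := 1
  hpq := by simp
  hc l := by
    refine Fin.cases ?_ (fun l => ?_) l
    · exact (continuous_grow h.gF).continuousOn
    · refine Fin.cases ?_ (fun l => ?_) l
      · exact (continuous_grow h.good_om).continuousOn
      · exact (continuous_grow (h.gg l)).continuousOn
  hJ l := by
    refine Fin.cases ?_ (fun l => ?_) l
    · intro h
      exact absurd rfl h
    · refine Fin.cases ?_ (fun l => ?_) l
      · intro _ h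
        exact absurd rfl h
      · intro _ _ y _
        exact hasFDerivAt_grow (h.gg l).smooth (h.gg l).ne_zero y
  hJs l := by
    refine Fin.cases ?_ (fun l => ?_) l
    · intro h
      exact absurd rfl h
    · refine Fin.cases ?_ (fun l => ?_) l
      · intro _ h
        exact absurd rfl h
      · intro _ _ y _ i j
        exact grow'_symm (h.gg l).smooth y i j
  hP y _ := hasFDerivAt_Pst h.gF.smooth h.gF.ne_zero h.oF y
  hX y _ a b := Pst_symm h.gF.smooth h.gF.ne_zero h.oF y a b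

theorem Fam.sd_p : h.sd.p = 0 := rfl

theorem Fam.sd_q : h.sd.q = 1 := rfl

theorem Fam.sd_P : h.sd.P = Pst F := rfl

theorem Fam.V_eq (i : Fin (n + 2)) (y : Fin (n + 2) → ℝ) : h.sd.V i y =
    (Matrix.of (Fin.cons (Pi.single i 1) (Fin.cons (Pst F y) fun l => grow (g l) y :
      Fin (n + 1) → Fin (n + 2) → ℂ) : Fin (n + 2) → Fin (n + 2) → ℂ)).det := by
  rw [SD.V_eq, h.sd_p, h.sd_q, h.sd_P]
  unfold dB
  congr 2
  funext l
  by_cases h1 : l = 1
  · subst h1
    rw [Function.update_self]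
    rfl
  · rw [Function.update_of_ne h1]
    revert h1
    refine Fin.cases ?_ (fun l => ?_) l
    · intro _
      rw [Function.update_self]
      rfl
    · intro h1
      rw [Function.update_of_ne (Fin.succ_ne_zero l)]
      revert h1
      refine Fin.cases ?_ (fun l => ?_) l
      · intro h1
        exact absurd rfl h1
      · intro _
        rfl

theorem per_Pst {i : Fin (n + 1)} (hF : PerI i F) (y : Fin (n + 2) → ℝ) :
    Pst F (y + Pi.single i.succ 1) = Pst F y := by
  funext j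
  refine Fin.cases ?_ (fun j => ?_) j
  · unfold Pst
    simp only [Fin.cons_zero]
    rw [tl_add_single, hF]
  · rw [Pst_eq, Pst_eq, tl_add_single, hF.lam, zero_add_single]

theorem Fam.side (j : Fin n) (x : Fin (n + 1) → ℝ) :
    h.sd.V j.succ.succ (j.succ.succ.insertNth 1 x) =
      h.sd.V j.succ.succ (j.succ.succ.insertNth 0 x) := by
  rw [h.V_eq, h.V_eq, insertNth_eq, per_Pst (h.pF j)]
  congr 2
  have : (fun l => grow (g l)
      ((Fin.insertNth j.succ.succ 0 x : Fin (n + 2) → ℝ) + Pi.single j.succ.succ 1)) =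
      fun l => grow (g l) (Fin.insertNth j.succ.succ 0 x : Fin (n + 2) → ℝ) :=
    funext fun l => (h.pg l j).grow _
  rw [this]

theorem Fam.top (x : Fin (n + 1) → ℝ) : h.sd.V 0 (Fin.insertNth 0 1 x) = 0 := by
  rw [SD.V_eq, dB_sum_right]
  refine Finset.sum_eq_zero fun j _ => ?_
  refine Fin.cases ?_ (fun j => ?_) j
  · rw [dB_self _ h.sd.hpq, mul_zero]
  · have : h.sd.P (Fin.insertNth 0 1 x : Fin (n + 2) → ℝ) j.succ = 0 := by
      rw [h.sd_P, Pst_eq]
      simp
    rw [this, zero_mul]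

theorem Fam.bottom (x : Fin (n + 1) → ℝ) :
    ((-Complex.I) ^ n * Complex.I * h.sd.V 0 (Fin.insertNth 0 0 x)).re = 0 := by
  set y : Fin (n + 2) → ℝ := Fin.insertNth 0 0 x with hy
  have hy0 : y 0 = 0 := by simp [hy]
  have key := re_det_eq_zero (d := n + 1)
    (Fin.cons (Pi.single 0 1) (Fin.cons (Pst F y) fun l => grow (g l) y :
      Fin (n + 1) → Fin (n + 2) → ℂ) : Fin (n + 2) → Fin (n + 2) → ℂ)
    (p := 0) (q := 1) (by simp) rfl
    (Fin.cons (fun _ => 0) (Fin.cons (fun j => (y 0 ^ 2 - 1) / 2 * lam F j (tl (n + 1) y))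
      fun l j => (lw (g l) j (tl (n + 1) y)).im : Fin (n + 1) → Fin (n + 1) → ℝ) :
      Fin (n + 2) → Fin (n + 1) → ℝ) (fun j => by
        show Pst F y j.succ = _
        rw [Pst_eq]
        rfl) (by
        intro l
        refine Fin.cases ?_ (fun l => ?_) l
        · intro h
          exact absurd rfl h
        · refine Fin.cases ?_ (fun l => ?_) l
          · intro _ h
            exact absurd rfl h
          · intro _ _ j
            show grow (g l) y j.succ = Complex.I * ((lw (g l) j (tl (n + 1) y)).im : ℝ)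
            rw [grow_succ, hy0]
            simp)
  rw [h.V_eq]
  have e : (-Complex.I) ^ n * Complex.I * (Matrix.of (Fin.cons (Pi.single 0 1)
      (Fin.cons (Pst F y) fun l => grow (g l) y :
      Fin (n + 1) → Fin (n + 2) → ℂ) : Fin (n + 2) → Fin (n + 2) → ℂ)).det =
      -((-Complex.I) ^ (n + 1) * (Matrix.of (Fin.cons (Pi.single 0 1)
      (Fin.cons (Pst F y) fun l => grow (g l) y :
      Fin (n + 1) → Fin (n + 2) → ℂ) : Fin (n + 2) → Fin (n + 2) → ℂ)).det) := by
    rw [pow_succ]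
    ring
  rw [e, Complex.neg_re, key, neg_zero]

theorem Fam.face (s : ℝ) (x : Fin (n + 1) → ℝ) :
    ((-Complex.I) ^ n * Complex.I * h.sd.V 1 (Fin.insertNth 1 s x)).re =
      -frm (fc s F) (fun l => fc s (g l)) x := by
  rw [h.V_eq, det_cons_single_one]
  unfold frm
  rw [mul_neg, Complex.neg_re]
  congr 5
  funext l
  refine Fin.cases ?_ (fun l => ?_) l
  · simp only [Fin.cons_zero]
    rw [prow_eq]
    funext i
    exact (Pst_fc h.gF.smooth s x i).symm
  · simp only [Fin.cons_succ]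
    funext i
    exact (grow_fc (h.gg l).smooth s x i).symm

theorem continuousOn_insertNth (j : Fin (n + 2)) {c : ℝ} (hc : c ∈ Icc (0 : ℝ) 1)
    {V : (Fin (n + 2) → ℝ) → ℂ} (hV : ContinuousOn V (Icc 0 1)) :
    ContinuousOn (fun x : Fin (n + 1) → ℝ => V (j.insertNth c x)) (Icc 0 1) := by
  refine hV.comp ?_ ?_
  · refine Continuous.continuousOn (continuous_pi fun i => ?_)
    by_cases h : i = j
    · subst h
      simpa using continuous_const
    · obtain ⟨m, rfl⟩ := Fin.exists_succAbove_eq h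
      simpa using continuous_apply m
  · intro x hx
    constructor
    · intro i
      by_cases h : i = j
      · subst h
        simpa using hc.1
      · obtain ⟨m, rfl⟩ := Fin.exists_succAbove_eq h
        simpa using hx.1 m
    · intro i
      by_cases h : i = j
      · subst h
        simpa using hc.2
      · obtain ⟨m, rfl⟩ := Fin.exists_succAbove_eq h
        simpa using hx.2 m

/-- Stokes' theorem -/
theorem Fam.stokes (h : Fam F g) : ((-Complex.I) ^ n * Complex.I *
    ∫ y in Icc (0 : Fin (n + 2) → ℝ) 1, (Matrix.of (rws F g y)).det).re =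
      (∫ x in Icc (0 : Fin (n + 1) → ℝ) 1, frm (fc 0 F) (fun l => fc 0 (g l)) x) -
        ∫ x in Icc (0 : Fin (n + 1) → ℝ) 1, frm (fc 1 F) (fun l => fc 1 (g l)) x := by
  have hst := h.sd.stokes
  have h0 : ∑ j : Fin n, ((∫ x in Icc (0 : Fin (n + 1) → ℝ) 1,
      h.sd.V j.succ.succ (j.succ.succ.insertNth 1 x)) -
      ∫ x in Icc (0 : Fin (n + 1) → ℝ) 1, h.sd.V j.succ.succ (j.succ.succ.insertNth 0 x)) = 0 := by
    refine Finset.sum_eq_zero fun j _ => ?_
    simp only [h.side, sub_self]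
  rw [Fin.sum_univ_succ, Fin.sum_univ_succ, h0, add_zero] at hst
  simp only [h.top, integral_zero, zero_sub] at hst
  have e0 : (∫ y in Icc (0 : Fin (n + 2) → ℝ) 1, (Matrix.of (rws F g y)).det) =
      ∫ y in Icc (0 : Fin (n + 2) → ℝ) 1, detC (n + 2) fun l => h.sd.J l y := rfl
  have hre : ∀ (j : Fin (n + 2)) (c : ℝ) (_ : c ∈ Icc (0 : ℝ) 1),
      ((-Complex.I) ^ n * Complex.I * ∫ x in Icc (0 : Fin (n + 1) → ℝ) 1,
        h.sd.V j (j.insertNth c x)).re = ∫ x in Icc (0 : Fin (n + 1) → ℝ) 1,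
        ((-Complex.I) ^ n * Complex.I * h.sd.V j (j.insertNth c x)).re := by
    intro j c hc
    rw [← integral_const_mul]
    exact (ContinuousLinearMap.integral_comp_comm Complex.reCLM
      ((continuousOn_const.mul (continuousOn_insertNth j hc
        (h.sd.continuousOn_V j))).integrableOn_compact isCompact_Icc)).symm
  rw [e0, hst, mul_add, mul_sub, mul_neg, Complex.add_re, Complex.neg_re, Complex.sub_re]
  have h01 : (0 : ℝ) ∈ Icc (0 : ℝ) 1 := ⟨le_refl _, zero_le_one⟩
  have h11 : (1 : ℝ) ∈ Icc (0 : ℝ) 1 := ⟨zero_le_one, le_refl _⟩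
  have e1 := hre 0 0 h01
  have e2 := hre 1 1 h11
  have e3 := hre 1 0 h01
  rw [e1]
  have e2' : (Fin.succ 0 : Fin (n + 2)) = 1 := rfl
  rw [e2', e2, e3]
  simp only [h.bottom, h.face, integral_zero, integral_neg]
  ring

end stokes

end Pool.Agent.Helper90.HT
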