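import Pool.Agent.Helper90.HT.Stk
import Pool.Agent.Helper90.HB.Green
set_option autoImplicit false

/-!
The sum of the forms over the terms of `alpha`, and the determinant which remains.
-/

namespace Pool.Agent.Helper90.HT

open MeasureTheory Set Pool.Agent.TH826.MK Pool.Agent.W367.KT Pool.Agent.Helper90.HB

section alt

variable {V : Type*} [AddCommGroup V] [Module ℂ V] {m : ℕ}

theorem alt_swap (φ : V [⋀^Fin (m + 2)]→ₗ[ℂ] ℂ) (a b : V) (w : Fin m → V) :
    φ (Fin.cons a (Fin.cons b w : Fin (m + 1) → V) : Fin (m + 2) → V) =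
      -φ (Fin.cons b (Fin.cons a w : Fin (m + 1) → V) : Fin (m + 2) → V) := by
  have h := φ.map_swap (Fin.cons b (Fin.cons a w : Fin (m + 1) → V) : Fin (m + 2) → V)
    (i := 0) (j := 1) (by simp)
  rw [← h]
  congr 1
  funext l
  rw [Function.comp_apply]
  refine Fin.cases ?_ (fun l => ?_) l
  · rw [Equiv.swap_apply_left]
    rfl
  · refine Fin.cases ?_ (fun l => ?_) l
    · have e : (Fin.succ 0 : Fin (m + 2)) = 1 := rfl
      rw [e, Equiv.swap_apply_right]
      rfl
    · rw [Equiv.swap_apply_of_ne_of_ne (Fin.succ_ne_zero _)]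
      · rfl
      · intro e
        have e' : (1 : Fin (m + 2)) = Fin.succ 0 := rfl
        rw [e'] at e
        exact Fin.succ_ne_zero _ (Fin.succ_injective _ e)

theorem star_sum (φ : V [⋀^Fin (m + 2)]→ₗ[ℂ] ℂ) {R : ℕ} (n : Fin R → ℕ)
    (v : Fin R → Fin (m + 1) → ℤ) (X : Fin (m + 1) → V) (M G : Fin R → V) (T : V)
    (hM : ∀ j, M j = ∑ s, (v j s : ℂ) • X s)
    (hG : ∑ j, (n j : ℂ) • G j = (1 / 2 : ℂ) • T +
      ∑ s, ((1 / 2 : ℂ) * ∑ j, (n j : ℂ) * (v j s : ℂ)) • X s)
    (hN : ∀ j, ∑ s, v j s ^ 2 ≠ 0) :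
    ∑ j, ((n j : ℂ) / ((∑ s, v j s ^ 2 : ℤ) : ℂ)) * ∑ s : Fin (m + 1),
      ((-1) ^ (s : ℕ) * (v j s : ℂ)) * φ (Fin.cons (M j) (Fin.cons (G j)
        (fun l => X (s.succAbove l)) : Fin (m + 1) → V) : Fin (m + 2) → V) =
      -(1 / 2 : ℂ) * φ (Fin.cons T X : Fin (m + 2) → V) := by
  have h1 : ∀ j (s : Fin (m + 1)), φ (Fin.cons (M j) (Fin.cons (G j)
        (fun l => X (s.succAbove l)) : Fin (m + 1) → V) : Fin (m + 2) → V) =
      -(((v j s : ℂ) * (-1) ^ (s : ℕ)) * φ (Fin.cons (G j) X : Fin (m + 2) → V)) := by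
    intro j s
    rw [alt_swap, hM]
    have h2 : φ (Fin.cons (G j) (Fin.cons (∑ s, (v j s : ℂ) • X s)
        (fun l => X (s.succAbove l)) : Fin (m + 1) → V) : Fin (m + 2) → V) =
        (φ.curryLeft (G j)) (Fin.cons (∑ s, (v j s : ℂ) • X s)
        (fun l => X (s.succAbove l)) : Fin (m + 1) → V) := rfl
    rw [h2, alt_cons_comb]
    rfl
  have h3 : ∀ j, ((n j : ℂ) / ((∑ s, v j s ^ 2 : ℤ) : ℂ)) * ∑ s : Fin (m + 1),
      ((-1) ^ (s : ℕ) * (v j s : ℂ)) * φ (Fin.cons (M j) (Fin.cons (G j)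
        (fun l => X (s.succAbove l)) : Fin (m + 1) → V) : Fin (m + 2) → V) =
      -((n j : ℂ) * φ (Fin.cons (G j) X : Fin (m + 2) → V)) := by
    intro j
    have h4 : ∑ s : Fin (m + 1),
      ((-1) ^ (s : ℕ) * (v j s : ℂ)) * φ (Fin.cons (M j) (Fin.cons (G j)
        (fun l => X (s.succAbove l)) : Fin (m + 1) → V) : Fin (m + 2) → V) =
        -(((∑ s, v j s ^ 2 : ℤ) : ℂ) * φ (Fin.cons (G j) X : Fin (m + 2) → V)) := by
      push_cast
      rw [Finset.sum_mul, ← Finset.sum_neg_distrib]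
      refine Finset.sum_congr rfl fun s _ => ?_
      rw [h1]
      have h5 : (-1 : ℂ) ^ (s : ℕ) * (-1) ^ (s : ℕ) = 1 := by
        rw [← mul_pow]
        norm_num
      linear_combination (-(v j s : ℂ) ^ 2 * φ (Fin.cons (G j) X : Fin (m + 2) → V)) * h5
    rw [h4]
    have h6 : ((∑ s, v j s ^ 2 : ℤ) : ℂ) ≠ 0 := by exact_mod_cast hN j
    field_simp
  rw [Finset.sum_congr rfl fun j _ => h3 j, Finset.sum_neg_distrib]
  have h7 : ∑ j, (n j : ℂ) * φ (Fin.cons (G j) X : Fin (m + 2) → V) =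
      (1 / 2 : ℂ) * φ (Fin.cons T X : Fin (m + 2) → V) := by
    have h8 := alt_cons_sum φ Finset.univ (fun j => (n j : ℂ)) G X
    simp only [smul_eq_mul] at h8
    rw [← h8, hG]
    have h9 : ∀ a b : V, φ (Fin.cons (a + b) X : Fin (m + 2) → V) =
        φ (Fin.cons a X : Fin (m + 2) → V) + φ (Fin.cons b X : Fin (m + 2) → V) := by
      intro a b
      have e : ∀ a : V, φ (Fin.cons a X : Fin (m + 2) → V) = φ.curryLeft a X := fun _ => rfl
      rw [e, e, e, map_add]
      rfl
    have h10 : ∀ (c : ℂ) (a : V), φ (Fin.cons (c • a) X : Fin (m + 2) → V) =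
        c * φ (Fin.cons a X : Fin (m + 2) → V) := by
      intro c a
      have e : ∀ a : V, φ (Fin.cons a X : Fin (m + 2) → V) = φ.curryLeft a X := fun _ => rfl
      rw [e, e, map_smul]
      rfl
    rw [h9, h10, alt_cons_sum]
    have h11 : ∀ s, φ (Fin.cons (X s) X : Fin (m + 2) → V) = 0 := fun s =>
      φ.map_eq_zero_of_eq _ (i := 0) (j := s.succ) rfl (Fin.succ_ne_zero s).symm
    simp only [h11, smul_zero, Finset.sum_const_zero, add_zero]
  rw [h7]
  ring

end alt

section det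

/-- The determinant with the rows `c e_1`, `w`, `b_l e_0 + a e_(l+2)`. -/
theorem det_rows {k : ℕ} (c a : ℂ) (ha : a ≠ 0) (b : Fin (k + 1) → ℂ) (w : Fin (k + 3) → ℂ) :
    (Matrix.detRowAlternating (R := ℂ) (n := Fin (k + 3)))
      (Fin.cons (Pi.single 1 c) (Fin.cons w (fun l => b l • Pi.single 0 1 +
        Pi.single l.succ.succ a) : Fin (k + 2) → Fin (k + 3) → ℂ) :
        Fin (k + 3) → Fin (k + 3) → ℂ) =
      -(c * a ^ (k + 1)) * (w 0 - ∑ l : Fin (k + 1), b l / a * w l.succ.succ) := by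
  set φ := Matrix.detRowAlternating (R := ℂ) (n := Fin (k + 3)) with hφ
  set B : Fin (k + 1) → Fin (k + 3) → ℂ := fun l => b l • Pi.single 0 1 + Pi.single l.succ.succ a
    with hB
  -- the linear function of the second row
  let L : (Fin (k + 3) → ℂ) →ₗ[ℂ] ℂ :=
    { toFun := fun w => (φ.curryLeft (Pi.single 1 c)).curryLeft w B
      map_add' := fun x y => by rw [map_add]; rfl
      map_smul' := fun x y => by rw [map_smul]; rfl }
  have hL : ∀ w, φ (Fin.cons (Pi.single 1 c) (Fin.cons w B : Fin (k + 2) → Fin (k + 3) → ℂ) :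
        Fin (k + 3) → Fin (k + 3) → ℂ) = L w := fun w => rfl
  have h1 : L (Pi.single 1 1) = 0 := by
    by_cases hc : c = 0
    · rw [← hL, hc]
      exact φ.map_coord_zero 0 (by simp)
    · have h2 : L (Pi.single 1 c) = 0 := by
        rw [← hL]
        exact φ.map_eq_zero_of_eq _ (i := 0) (j := 1) rfl (by simp)
      have h3 : (Pi.single 1 c : Fin (k + 3) → ℂ) = c • Pi.single 1 1 := by
        rw [← Pi.single_smul]
        simp
      rw [h3, map_smul, smul_eq_mul] at h2
      exact (mul_eq_zero.1 h2).resolve_left hc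
  have h2 : ∀ l : Fin (k + 1), L (Pi.single l.succ.succ 1) = -(b l / a) * L (Pi.single 0 1) := by
    intro l
    have h3 : L (B l) = 0 := by
      rw [← hL]
      refine φ.map_eq_zero_of_eq _ (i := 1) (j := l.succ.succ) rfl ?_
      intro e
      have e' : (1 : Fin (k + 3)) = Fin.succ 0 := rfl
      rw [e'] at e
      exact Fin.succ_ne_zero _ (Fin.succ_injective _ e).symm
    have h4 : (Pi.single l.succ.succ a : Fin (k + 3) → ℂ) = a • Pi.single l.succ.succ 1 := by
      rw [← Pi.single_smul]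
      simp
    rw [hB] at h3
    simp only [] at h3
    rw [h4, map_add, map_smul, map_smul, smul_eq_mul, smul_eq_mul] at h3
    field_simp
    linear_combination h3
  have h3 : L (Pi.single 0 1) = -(c * a ^ (k + 1)) := by
    rw [← hL, alt_swap]
    congr 1
    have e1 : φ (Fin.cons (Pi.single 0 1) (Fin.cons (Pi.single 1 c) B :
        Fin (k + 2) → Fin (k + 3) → ℂ) : Fin (k + 3) → Fin (k + 3) → ℂ) =
        (Matrix.of (Fin.cons (Pi.single 0 1) (Fin.cons (Pi.single 1 c) B :
        Fin (k + 2) → Fin (k + 3) → ℂ) : Fin (k + 3) → Fin (k + 3) → ℂ)).det := rfl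
    rw [e1, det_cons_single, one_mul]
    have e2 : (Matrix.of fun (l i : Fin (k + 2)) =>
        (Fin.cons (Pi.single 1 c) B : Fin (k + 2) → Fin (k + 3) → ℂ) l i.succ) =
        Matrix.of (Fin.cons (Pi.single 0 c) fun l => Pi.single l.succ a :
        Fin (k + 2) → Fin (k + 2) → ℂ) := by
      ext l i
      rw [Matrix.of_apply, Matrix.of_apply]
      refine Fin.cases ?_ (fun l => ?_) l
      · rw [Fin.cons_zero, Fin.cons_zero]
        refine Fin.cases ?_ (fun i => ?_) i
        · rw [Pi.single_eq_same]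
          exact Pi.single_eq_same (M := fun _ : Fin (k + 3) => ℂ) 1 c
        · rw [Pi.single_eq_of_ne (Fin.succ_ne_zero _)]
          have : (i.succ.succ : Fin (k + 3)) ≠ 1 := by
            intro e
            have e' : (1 : Fin (k + 3)) = Fin.succ 0 := rfl
            rw [e'] at e
            exact Fin.succ_ne_zero _ (Fin.succ_injective _ e)
          exact Pi.single_eq_of_ne (M := fun _ : Fin (k + 3) => ℂ) this c
      · rw [Fin.cons_succ, Fin.cons_succ, hB]
        simp only [Pi.add_apply, Pi.smul_apply]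
        rw [Pi.single_eq_of_ne (Fin.succ_ne_zero _), smul_zero, zero_add]
        by_cases h : i = l.succ
        · subst h
          rw [Pi.single_eq_same, Pi.single_eq_same]
        · rw [Pi.single_eq_of_ne h, Pi.single_eq_of_ne fun e => h (Fin.succ_injective _ e)]
    rw [e2, det_cons_single]
    congr 1
    have e3 : (Matrix.of fun (l i : Fin (k + 1)) => (Pi.single l.succ a : Fin (k + 2) → ℂ) i.succ) =
        Matrix.diagonal fun _ => a := by
      ext l i
      rw [Matrix.of_apply, Matrix.diagonal_apply]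
      by_cases h : l = i
      · subst h
        rw [if_pos rfl, Pi.single_eq_same]
      · rw [if_neg h, Pi.single_eq_of_ne fun e => h (Fin.succ_injective _ e).symm]
    rw [e3, Matrix.det_diagonal, Finset.prod_const, Finset.card_univ, Fintype.card_fin]
  rw [hL]
  have h4 : w = ∑ i, w i • (Pi.single i 1 : Fin (k + 3) → ℂ) := by
    funext j
    simp [Finset.sum_apply, Pi.single_apply]
  rw [h4, map_sum, Fin.sum_univ_succ, Fin.sum_univ_succ]
  simp only [map_smul, smul_eq_mul]
  have e' : (Fin.succ 0 : Fin (k + 3)) = 1 := rfl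
  rw [e', h1, mul_zero, zero_add, ← h4, h3]
  simp only [h2, h3]
  rw [mul_sub, Finset.mul_sum]
  rw [sub_eq_add_neg, ← Finset.sum_neg_distrib]
  congr 1
  · ring
  · exact Finset.sum_congr rfl fun l _ => by ring

end det

end Pool.Agent.Helper90.HT
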