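import Pool.Agent.Helper90.HT.Pos2
set_option autoImplicit false

/-!
The symmetry `θ ↦ 1 - θ` combined with complex conjugation.
-/

namespace Pool.Agent.Helper90.HT

open MeasureTheory Set Filter Topology Pool.Agent.TH826.MK Pool.Agent.W367.KT
open Pool.Agent.Helper90.HB
open Pool.Agent.N65.TK (D D_eq_BW)

section D

theorem D_conj_of_im {z : ℂ} (hz : z.im ≠ 0) : D (starRingEnd ℂ z) = -D z := by
  have h1 : ∀ t : ℝ, t ≠ 0 → (1 - (t : ℂ) * starRingEnd ℂ z).arg = -(1 - (t : ℂ) * z).arg := by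
    intro t ht
    have e : 1 - (t : ℂ) * starRingEnd ℂ z = starRingEnd ℂ (1 - (t : ℂ) * z) := by
      rw [map_sub, map_one, map_mul, Complex.conj_ofReal]
    rw [e, Complex.arg_conj, if_neg]
    intro h
    rw [Complex.arg_eq_pi_iff] at h
    have h2 := h.2
    simp at h2
    rcases h2 with h2 | h2
    · exact ht h2
    · exact hz h2
  unfold D
  have h2 : ∀ t : ℝ, (1 - (t : ℂ) * starRingEnd ℂ z).arg / t = -((1 - (t : ℂ) * z).arg / t) := by
    intro t
    by_cases ht : t = 0
    · subst ht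
      simp
    · rw [h1 t ht, neg_div]
  simp only [h2]
  have h3 := h1 1 one_ne_zero
  rw [Complex.ofReal_one, one_mul, one_mul] at h3
  rw [h3, RCLike.norm_conj, intervalIntegral.integral_neg]
  ring

theorem D_conj {z : ℂ} (h0 : z ≠ 0) (h1 : z ≠ 1) : D (starRingEnd ℂ z) = -D z := by
  by_cases hz : z.im = 0
  · have hzr : starRingEnd ℂ z = z := Complex.conj_eq_iff_im.2 hz
    rw [hzr]
    have hc : ∀ c : ℂ, ContinuousAt (fun t : ℝ => D (z + t * c)) 0 := by
      intro c
      have hu : HasDerivAt (fun t : ℝ => z + t * c) c 0 := by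
        have h := ((hasDerivAt_id (0 : ℝ)).ofReal_comp.mul_const c).const_add z
        simpa using h
      have h2 := hasDerivAt_BW (u := fun t : ℝ => z + t * c) hu (by simpa using h0)
        (by simpa using h1)
      have h3 := h2.continuousAt
      have e : (fun t : ℝ => D (z + t * c)) = fun t : ℝ => BW (z + t * c) :=
        funext fun t => D_eq_BW _
      rw [e]
      exact h3
    have h2 : Tendsto (fun t : ℝ => D (z + t * Complex.I) + D (z + t * (-Complex.I)))
        (𝓝[≠] 0) (𝓝 (D z + D z)) := by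
      have ha := (hc Complex.I).tendsto
      have hb := (hc (-Complex.I)).tendsto
      simp only [Complex.ofReal_zero, zero_mul, add_zero] at ha hb
      exact (ha.add hb).mono_left nhdsWithin_le_nhds
    have h3 : Tendsto (fun t : ℝ => D (z + t * Complex.I) + D (z + t * (-Complex.I)))
        (𝓝[≠] 0) (𝓝 0) := by
      refine tendsto_const_nhds.congr' ?_
      filter_upwards [self_mem_nhdsWithin] with t ht
      have h4 : z + t * (-Complex.I) = starRingEnd ℂ (z + t * Complex.I) := by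
        rw [map_add, hzr, map_mul, Complex.conj_ofReal, Complex.conj_I]
      rw [h4, D_conj_of_im, add_neg_cancel]
      simp only [Complex.add_im, hz, zero_add, Complex.im_ofReal_mul, Complex.I_im, mul_one]
      exact ht
    have h5 := tendsto_nhds_unique h2 h3
    linarith
  · exact D_conj_of_im hz

end D

section frm

variable {n : ℕ}

/-- the functions are conjugate to each other -/
def Cj (f0 f1 : (Fin n → ℝ) → ℂ) : Prop := ∀ θ, f1 (1 - θ) = starRingEnd ℂ (f0 θ)

/-- the reflection -/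
def rho (n : ℕ) (y : Fin (n + 1) → ℝ) : Fin (n + 1) → ℝ := Fin.cons (y 0) fun i => 1 - y i.succ

theorem tl_rho (y : Fin (n + 1) → ℝ) : tl n (rho n y) = 1 - tl n y := by
  funext i
  rw [tl_apply, rho, Fin.cons_succ]
  rfl

theorem rho_zero (y : Fin (n + 1) → ℝ) : rho n y 0 = y 0 := rfl

variable {f0 f1 : (Fin n → ℝ) → ℂ}

theorem Cj.om (h : Cj f0 f1) : Cj (om f0) (om f1) := by
  intro θ
  unfold Pool.Agent.TH826.MK.om
  rw [h θ, map_sub, map_one]

theorem Cj.lw (h : Cj f0 f1) (hf : ContDiff ℝ 2 f0) (i : Fin n) (θ : Fin n → ℝ) :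
    lw f1 i (1 - θ) = -starRingEnd ℂ (lw f0 i θ) := by
  have e : f1 = fun x => starRingEnd ℂ (f0 (1 - x)) := by
    funext x
    have := h (1 - x)
    rwa [sub_sub_cancel] at this
  have h1 : HasFDerivAt f0 (fderiv ℝ f0 θ) (1 - (1 - θ)) := by
    rw [sub_sub_cancel]
    exact ((hf.differentiable (by norm_num)) θ).hasFDerivAt
  have h2 : HasFDerivAt (fun x : Fin n → ℝ => 1 - x) (-(ContinuousLinearMap.id ℝ (Fin n → ℝ)))
      (1 - θ) := (hasFDerivAt_id (1 - θ)).const_sub 1
  have h3 := HasFDerivAt.comp (1 - θ) h1 h2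
  have h4 := Complex.conjCLE.toContinuousLinearMap.hasFDerivAt.comp (1 - θ) h3
  have h5 : HasFDerivAt f1 (Complex.conjCLE.toContinuousLinearMap.comp
      ((fderiv ℝ f0 θ).comp (-(ContinuousLinearMap.id ℝ (Fin n → ℝ))))) (1 - θ) := by
    rw [e]
    exact h4
  unfold Pool.Agent.TH826.MK.lw
  rw [h5.fderiv, h θ]
  simp only [ContinuousLinearMap.comp_apply, neg_apply, ContinuousLinearMap.id_apply, map_neg]
  rw [neg_div, map_div₀]
  rfl

theorem Cj.norm (h : Cj f0 f1) (θ : Fin n → ℝ) : ‖f1 (1 - θ)‖ = ‖f0 θ‖ := by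
  rw [h θ, RCLike.norm_conj]

/-- the signs -/
def sgn (n : ℕ) : Fin (n + 1) → ℂ := Fin.cons 1 fun _ => -1

theorem Cj.grow (h : Cj f0 f1) (hf : ContDiff ℝ 2 f0) (y : Fin (n + 1) → ℝ) (i : Fin (n + 1)) :
    grow f1 (rho n y) i = sgn n i * starRingEnd ℂ (grow f0 y i) := by
  refine Fin.cases ?_ (fun i => ?_) i
  · rw [grow_zero, grow_zero, tl_rho, h.norm, Complex.conj_ofReal]
    simp [sgn]
  · rw [grow_succ, grow_succ, tl_rho, rho_zero, h.lw hf]
    simp only [sgn, Fin.cons_succ, map_add, map_mul, Complex.conj_ofReal, Complex.conj_I,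
      Complex.neg_re, Complex.neg_im, Complex.conj_re, Complex.conj_im]
    push_cast
    ring

theorem Cj.prow (h : Cj f0 f1) (hf : ContDiff ℝ 2 f0) (h0 : ∀ θ, f0 θ ≠ 0)
    (h1 : ∀ θ, Pool.Agent.TH826.MK.om f0 θ ≠ 0) (y : Fin (n + 1) → ℝ) (i : Fin (n + 1)) :
    prow f1 (rho n y) i = sgn n i * starRingEnd ℂ (prow f0 y i) := by
  have hne : f0 (tl n y) ≠ 1 := fun e => h1 (tl n y) (by unfold Pool.Agent.TH826.MK.om; rw [e, sub_self])
  refine Fin.cases ?_ (fun i => ?_) i
  · unfold HB.prow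
    rw [Fin.cons_zero, Fin.cons_zero, tl_rho, h, D_conj (h0 _) hne]
    simp [sgn]
  · rw [prow_eq, prow_eq, Pst_eq, Pst_eq, tl_rho, rho_zero]
    unfold lam
    rw [h.norm, h.om.norm, h.lw hf, h.om.lw (contDiff_om hf)]
    simp only [sgn, Fin.cons_succ, Complex.conj_ofReal, Complex.neg_re, Complex.conj_re]
    push_cast
    ring

theorem frm_rho {g0 g1 : Fin n → (Fin n → ℝ) → ℂ} (h : Cj f0 f1) (hf : Good f0)
    (ho : ∀ θ, om f0 θ ≠ 0) (hg : ∀ l, Cj (g0 l) (g1 l)) (hgg : ∀ l, Good (g0 l))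
    (y : Fin (n + 1) → ℝ) : frm f1 g1 (rho n y) = -frm f0 g0 y := by
  unfold frm
  set M0 : Matrix (Fin (n + 1)) (Fin (n + 1)) ℂ := Matrix.of (Fin.cons (prow f0 y)
    fun l => grow (g0 l) y : Fin (n + 1) → Fin (n + 1) → ℂ) with hM0
  have e1 : (Matrix.of (Fin.cons (prow f1 (rho n y)) fun l => grow (g1 l) (rho n y) :
      Fin (n + 1) → Fin (n + 1) → ℂ)) =
      Matrix.of fun l i => sgn n i * (M0.map (starRingEnd ℂ)) l i := by
    ext l i
    rw [Matrix.of_apply, Matrix.of_apply, Matrix.map_apply, hM0, Matrix.of_apply]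
    refine Fin.cases ?_ (fun l => ?_) l
    · rw [Fin.cons_zero, Fin.cons_zero]
      exact h.prow hf.smooth hf.ne_zero ho y i
    · rw [Fin.cons_succ, Fin.cons_succ]
      exact (hg l).grow (hgg l).smooth y i
  rw [e1, Matrix.det_mul_row]
  have e2 : (M0.map (starRingEnd ℂ)).det = starRingEnd ℂ M0.det :=
    (RingHom.map_det (starRingEnd ℂ) M0).symm
  have e3 : ∏ i, sgn n i = (-1) ^ n := by
    rw [Fin.prod_univ_succ]
    simp [sgn]
  rw [e2, e3]
  have e4 : (-Complex.I) ^ n * Complex.I * ((-1) ^ n * starRingEnd ℂ M0.det) =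
      -starRingEnd ℂ ((-Complex.I) ^ n * Complex.I * M0.det) := by
    rw [map_mul, map_mul, map_pow, map_neg, Complex.conj_I, neg_neg]
    have : (-Complex.I) ^ n * (-1) ^ n = Complex.I ^ n := by
      rw [← mul_pow]
      simp
    rw [← this]
    ring
  rw [e4, Complex.neg_re, Complex.conj_re]

theorem rho_rho (y : Fin (n + 1) → ℝ) : rho n (rho n y) = y := by
  funext i
  refine Fin.cases ?_ (fun i => ?_) i
  · rfl
  · simp [rho]

theorem measurePreserving_rho : MeasurePreserving (rho n) volume volume := by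
  have h := volume_preserving_pi (α' := fun _ : Fin (n + 1) => ℝ) (β' := fun _ : Fin (n + 1) => ℝ)
    (f := fun i => if i = 0 then fun x => x else fun x => 1 - x) (fun i => by
      by_cases hi : i = 0
      · simp only [if_pos hi]
        exact MeasurePreserving.id volume
      · simp only [if_neg hi]
        exact Measure.measurePreserving_sub_left volume 1)
  have e : (fun (a : Fin (n + 1) → ℝ) i => (if i = 0 then fun x => x else fun x => 1 - x :
      ℝ → ℝ) (a i)) = rho n := by
    funext a i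
    refine Fin.cases ?_ (fun i => ?_) i
    · simp [rho]
    · simp [rho, Fin.succ_ne_zero]
  rwa [e] at h

theorem integral_rho (F : (Fin (n + 1) → ℝ) → ℝ) :
    ∫ y in Icc (0 : Fin (n + 1) → ℝ) 1, F (rho n y) = ∫ y in Icc (0 : Fin (n + 1) → ℝ) 1, F y := by
  have hm : Measurable (rho n) := measurePreserving_rho.measurable
  have h := (measurePreserving_rho (n := n)).setIntegral_preimage_emb
    (MeasurableEquiv.ofInvolutive (rho n) rho_rho hm).measurableEmbedding F
    (Icc (0 : Fin (n + 1) → ℝ) 1)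
  have e : rho n ⁻¹' Icc (0 : Fin (n + 1) → ℝ) 1 = Icc 0 1 := by
    ext y
    simp only [mem_preimage, mem_Icc]
    constructor
    · rintro ⟨h1, h2⟩
      refine ⟨fun i => ?_, fun i => ?_⟩
      · refine Fin.cases (h1 0) (fun i => ?_) i
        have := h2 i.succ
        simp only [rho, Fin.cons_succ, Pi.one_apply] at this
        show 0 ≤ y i.succ
        linarith
      · refine Fin.cases (h2 0) (fun i => ?_) i
        have := h1 i.succ
        simp only [rho, Fin.cons_succ, Pi.zero_apply] at this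
        show y i.succ ≤ 1
        linarith
    · rintro ⟨h1, h2⟩
      refine ⟨fun i => ?_, fun i => ?_⟩
      · refine Fin.cases (h1 0) (fun i => ?_) i
        have := h2 i.succ
        simp only [Pi.one_apply] at this
        show 0 ≤ 1 - y i.succ
        linarith
      · refine Fin.cases (h2 0) (fun i => ?_) i
        have := h1 i.succ
        simp only [Pi.zero_apply] at this
        show 1 - y i.succ ≤ 1
        linarith
  rw [e] at h
  exact h

theorem integral_frm_rho {g0 g1 : Fin n → (Fin n → ℝ) → ℂ} (h : Cj f0 f1) (hf : Good f0)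
    (ho : ∀ θ, om f0 θ ≠ 0) (hg : ∀ l, Cj (g0 l) (g1 l)) (hgg : ∀ l, Good (g0 l)) :
    ∫ y in Icc (0 : Fin (n + 1) → ℝ) 1, frm f1 g1 y =
      -∫ y in Icc (0 : Fin (n + 1) → ℝ) 1, frm f0 g0 y := by
  rw [← integral_rho, ← integral_neg]
  exact integral_congr_ae (Eventually.of_forall fun y => frm_rho h hf ho hg hgg y)

end frm

end Pool.Agent.Helper90.HT
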