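import Pool.Agent.Helper90.HT.Sym
set_option autoImplicit false

/-!
The regulator of `alpha` on the first member of the family is not zero.
-/

namespace Pool.Agent.Helper90.HT

open MeasureTheory Set Filter Pool.Agent.TH826.MK Pool.Agent.W367.KT Pool.Agent.Helper90.HB

variable {k r : ℕ} (A : Par k r)

theorem Par.ax_refl (b : Fin (k + 1) → ℤ) (θ : Fin (k + 1) → ℝ) :
    A.ax b (Fin.cons 1 (1 - θ)) = ((∑ l, b l : ℤ) : ℂ) * (2 * Real.pi * Complex.I) +
      starRingEnd ℂ (A.ax b (Fin.cons 0 θ)) := by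
  unfold Par.ax
  push_cast
  rw [map_sum, Finset.sum_mul, ← Finset.sum_add_distrib]
  refine Finset.sum_congr rfl fun l _ => ?_
  simp only [Fin.cons_succ, Pi.sub_apply, Pi.one_apply, map_mul, map_sub, Complex.conj_ofReal,
    Complex.conj_I, map_intCast, map_ofNat]
  push_cast
  ring

theorem Par.ex_refl {c : ℂ} (hc : starRingEnd ℂ c = c) (b : Fin (k + 1) → ℤ) :
    Cj (fc 0 (A.ex c b)) (fc 1 (A.ex c b)) := by
  intro θ
  unfold fc Par.ex
  rw [A.ax_refl, Complex.exp_add, Complex.exp_int_mul_two_pi_mul_I, one_mul, map_mul, hc,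
    Complex.exp_conj]

theorem Par.cc_refl (hc : ∀ j, starRingEnd ℂ (A.c j) = A.c j) :
    Cj (fc 0 A.cc) (fc 1 A.cc) := by
  intro θ
  unfold fc Par.cc
  rw [map_prod]
  refine Finset.prod_congr rfl fun j _ => ?_
  have h : A.mm j (Fin.cons 1 (1 - θ)) = starRingEnd ℂ (A.mm j (Fin.cons 0 θ)) :=
    A.ex_refl (hc j) (A.v j) θ
  rw [h, map_pow, map_mul, map_sub, map_sub, map_one, map_inv₀]

theorem Par.tt_refl : Cj (fc (n := k + 1) 0 A.tt) (fc 1 A.tt) := by
  intro θ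
  unfold fc Par.tt
  rw [Fin.cons_zero, Fin.cons_zero, mul_one, mul_zero, Real.cos_pi, Real.cos_zero,
    ← Complex.exp_conj]
  congr 1
  simp

section ok

variable {A} (hA : A.Ok) (hc : ∀ j, starRingEnd ℂ (A.c j) = A.c j)

include hA hc

theorem Par.Ok.rr_refl : Cj (fc 0 A.rr) (fc 1 A.rr) := by
  intro θ
  have h1 : A.ww (Fin.cons 1 (1 - θ)) = starRingEnd ℂ (A.ww (Fin.cons 0 θ)) := by
    unfold Par.ww
    have h2 : A.cc (Fin.cons 1 (1 - θ)) = starRingEnd ℂ (A.cc (Fin.cons 0 θ)) :=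
      A.cc_refl hc θ
    have h3 : A.tt (Fin.cons 1 (1 - θ)) = starRingEnd ℂ (A.tt (Fin.cons 0 θ)) := A.tt_refl θ
    rw [h2, h3, map_add, map_mul, map_mul, map_one, map_ofNat]
  unfold fc Par.rr
  have h4 := hA.hw (Fin.cons 0 θ)
  rw [Complex.mem_slitPlane_iff_arg] at h4
  rw [h1, ← Complex.exp_conj, map_div₀, map_ofNat, ← Complex.log_conj _ h4.1]

theorem Par.Ok.yy_refl : Cj (fc 0 A.yy) (fc 1 A.yy) := by
  intro θ
  have h := hA.rr_refl hc θ
  unfold fc at h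
  unfold fc Par.yy
  rw [h, map_div₀, map_add, map_sub, map_one]

theorem Par.Ok.X_refl (s : Fin (k + 2)) : Cj (fc 0 (A.X s)) (fc 1 (A.X s)) := by
  refine Fin.cases ?_ (fun l => ?_) s
  · exact hA.yy_refl hc
  · exact A.ex_refl (map_one _) _

theorem Par.Ok.M_refl (j : Fin (r + 1)) : Cj (fc 0 (A.M j)) (fc 1 (A.M j)) := by
  refine Fin.cases ?_ (fun l => ?_) j
  · exact hA.yy_refl hc
  · exact A.ex_refl (hc l) _

theorem Par.Ok.RR_one : A.RR 1 = -A.RR 0 := by
  unfold Par.RR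
  rw [← Finset.sum_neg_distrib]
  refine Finset.sum_congr rfl fun j _ => ?_
  rw [← mul_neg, ← Finset.sum_neg_distrib]
  congr 1
  refine Finset.sum_congr rfl fun t _ => ?_
  rw [← mul_neg]
  congr 1
  exact integral_frm_rho (hA.M_refl hc j) (good_fc (hA.good_M j) 0) (fun θ => hA.om_M j _)
    (fun l => hA.X_refl hc _) fun l => good_fc (hA.good_X _) 0

/-- the regulator has the sign of `κ` -/
theorem Par.Ok.RR_zero : ∃ J : ℝ, 0 < J ∧ A.RR 0 = J * A.κ := by
  refine ⟨1 / 4 * (2 * Real.pi) ^ (k + 1) * Real.pi * ∫ y in Icc (0 : Fin (k + 3) → ℝ) 1,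
      Real.sin (Real.pi * y 1) * (A.Lam (grow A.yy y)).re, ?_, ?_⟩
  · have h1 := hA.integral_pos
    have h2 := Real.pi_pos
    positivity
  · have h1 := hA.RR_sub
    rw [hA.RR_one hc] at h1
    linear_combination (1 / 2 : ℝ) * h1

end ok

end Pool.Agent.Helper90.HT
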