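import Pool.Agent.Helper90.HT.Fun
set_option autoImplicit false

/-!
The sum of Stokes' formulas over the terms of `alpha`.
-/

namespace Pool.Agent.Helper90.HT

open MeasureTheory Set Pool.Agent.TH826.MK Pool.Agent.W367.KT Pool.Agent.Helper90.HB

variable {k r : ℕ} (A : Par k r)

/-- the coordinates -/
noncomputable def Par.X : Fin (k + 2) → (Fin (k + 2) → ℝ) → ℂ := Fin.cons A.yy A.xx

/-- the monomials -/
noncomputable def Par.M : Fin (r + 1) → (Fin (k + 2) → ℝ) → ℂ := Fin.cons A.yy A.mm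

/-- the exponents -/
def Par.vv : Fin (r + 1) → Fin (k + 2) → ℤ := Fin.cons (Pi.single 0 1) fun j => Fin.cons 0 (A.v j)

/-- the multiplicities -/
def Par.nn : Fin (r + 1) → ℕ := Fin.cons 1 A.n

/-- the derivative of the exponent of `T` -/
noncomputable def Par.et' (p : Fin (k + 2) → ℝ) : (Fin (k + 2) → ℝ) →L[ℝ] ℂ :=
  (((-(A.κ * (Real.pi * Real.sin (Real.pi * p 0))) : ℝ) : ℂ) * Complex.I) •
    Complex.ofRealCLM.comp (ContinuousLinearMap.proj (R := ℝ) (φ := fun _ => ℝ) 0)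

theorem Par.hasFDerivAt_et (p : Fin (k + 2) → ℝ) : HasFDerivAt (fun p : Fin (k + 2) → ℝ =>
    (((A.κ * Real.cos (Real.pi * p 0) : ℝ) : ℂ) * Complex.I)) (A.et' p) p := by
  have h1 : HasDerivAt (fun s : ℝ => (((A.κ * Real.cos (Real.pi * s) : ℝ) : ℂ) * Complex.I))
      (((-(A.κ * (Real.pi * Real.sin (Real.pi * p 0))) : ℝ) : ℂ) * Complex.I) (p 0) := by
    have h2 : HasDerivAt (fun s : ℝ => A.κ * Real.cos (Real.pi * s))
        (-(A.κ * (Real.pi * Real.sin (Real.pi * p 0)))) (p 0) := by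
      have h3 : HasDerivAt (fun s : ℝ => Real.pi * s) Real.pi (p 0) := by
        simpa using (hasDerivAt_id (p 0)).const_mul Real.pi
      have h4 := (h3.cos).const_mul A.κ
      refine h4.congr_deriv ?_
      ring
    exact h2.ofReal_comp.mul_const _
  have h2 : HasFDerivAt (fun p : Fin (k + 2) → ℝ => p 0)
      (ContinuousLinearMap.proj (R := ℝ) (φ := fun _ => ℝ) 0) p :=
    (ContinuousLinearMap.proj (R := ℝ) (φ := fun _ => ℝ) 0).hasFDerivAt
  have h3 := HasFDerivAt.comp (f := fun p : Fin (k + 2) → ℝ => p 0) p h1.hasFDerivAt h2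
  refine h3.congr_fderiv ?_
  ext v
  simp [Par.et']
  ring

theorem Par.grow_TT (y : Fin (k + 3) → ℝ) : grow A.TT y =
    Pi.single 1 (Complex.I * ((-(A.κ * (Real.pi * Real.sin (Real.pi * y 1))) : ℝ) : ℂ)) := by
  have hT : A.TT = fun p => (-1 : ℂ) *
      Complex.exp (((A.κ * Real.cos (Real.pi * p 0) : ℝ) : ℂ) * Complex.I) := by
    funext p
    unfold Par.TT
    ring
  have hlw : ∀ i, lw A.TT i (tl (k + 2) y) = A.et' (tl (k + 2) y) (Pi.single i 1) := by
    intro i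
    rw [hT]
    exact lw_exp (A.hasFDerivAt_et _) (-1) (by norm_num) i
  have hnorm : ‖A.TT (tl (k + 2) y)‖ = 1 := by
    unfold Par.TT
    rw [norm_neg, Complex.norm_exp_ofReal_mul_I]
  funext i
  refine Fin.cases ?_ (fun i => ?_) i
  · rw [grow_zero, hnorm, Real.log_one, Pi.single_eq_of_ne]
    · simp
    · simp
  · rw [grow_succ, hlw]
    refine Fin.cases ?_ (fun i => ?_) i
    · have e : (Fin.succ 0 : Fin (k + 3)) = 1 := rfl
      rw [e, Pi.single_eq_same]
      have e2 : tl (k + 2) y 0 = y 1 := rfl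
      unfold Par.et'
      rw [e2]
      generalize -(A.κ * (Real.pi * Real.sin (Real.pi * y 1))) = R
      simp
    · have e : (i.succ.succ : Fin (k + 3)) ≠ 1 := by
        intro e
        have e' : (1 : Fin (k + 3)) = Fin.succ 0 := rfl
        rw [e'] at e
        exact Fin.succ_ne_zero _ (Fin.succ_injective _ e)
      rw [Pi.single_eq_of_ne e]
      unfold Par.et'
      simp

theorem Par.per_cc (i : Fin (k + 1)) : PerI i.succ A.cc := by
  intro p
  unfold Par.cc Par.mm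
  simp only [A.per_ex _ _ i p]

theorem Par.per_tt (i : Fin (k + 1)) : PerI i.succ A.tt := by
  intro p
  unfold Par.tt
  rw [zero_add_single]

theorem Par.per_rr (i : Fin (k + 1)) : PerI i.succ A.rr := by
  intro p
  unfold Par.rr Par.ww
  rw [A.per_cc i p, A.per_tt i p]

theorem Par.per_yy (i : Fin (k + 1)) : PerI i.succ A.yy := by
  intro p
  unfold Par.yy
  rw [A.per_rr i p]

theorem Par.per_X (s : Fin (k + 2)) (i : Fin (k + 1)) : PerI i.succ (A.X s) := by
  refine Fin.cases ?_ (fun _ => ?_) s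
  · exact A.per_yy i
  · exact A.per_ex _ _ i

theorem Par.per_M (j : Fin (r + 1)) (i : Fin (k + 1)) : PerI i.succ (A.M j) := by
  refine Fin.cases ?_ (fun _ => ?_) j
  · exact A.per_yy i
  · exact A.per_ex _ _ i

section ok

variable {A} (hA : A.Ok)

include hA

theorem Par.Ok.good_X (s : Fin (k + 2)) : Good (A.X s) := by
  refine Fin.cases ?_ (fun _ => ?_) s
  · exact hA.good_yy
  · exact A.good_ex (by simp) _

theorem Par.Ok.good_M (j : Fin (r + 1)) : Good (A.M j) := by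
  refine Fin.cases ?_ (fun l => ?_) j
  · exact hA.good_yy
  · exact hA.good_mm l

theorem Par.Ok.om_M (j : Fin (r + 1)) (p : Fin (k + 2) → ℝ) : om (A.M j) p ≠ 0 := by
  refine Fin.cases ?_ (fun l => ?_) j
  · exact hA.one_sub_yy_ne p
  · exact (hA.good_om_mm l).ne_zero p

theorem Par.Ok.fam (j : Fin (r + 1)) (s : Fin (k + 2)) :
    Fam (A.M j) (fun l : Fin (k + 1) => A.X (s.succAbove l)) where
  gF := hA.good_M j
  oF := hA.om_M j
  gg l := hA.good_X _
  pF i := A.per_M j i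
  pg l i := A.per_X _ i

theorem Par.Ok.grow_M (j : Fin (r + 1)) (y : Fin (k + 3) → ℝ) :
    grow (A.M j) y = ∑ s, (A.vv j s : ℂ) • grow (A.X s) y := by
  rw [Fin.sum_univ_succ]
  refine Fin.cases ?_ (fun j => ?_) j
  · show grow A.yy y = ((Pi.single 0 1 : Fin (k + 2) → ℤ) 0 : ℂ) • grow A.yy y +
      ∑ i : Fin (k + 1), ((Pi.single 0 1 : Fin (k + 2) → ℤ) i.succ : ℂ) • grow (A.X i.succ) y
    rw [Finset.sum_eq_zero, Pi.single_eq_same]
    · simp
    · intro i _
      rw [Pi.single_eq_of_ne (Fin.succ_ne_zero i)]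
      simp
  · show grow (A.mm j) y = ((0 : ℤ) : ℂ) • grow A.yy y +
      ∑ i : Fin (k + 1), (A.v j i : ℂ) • grow (A.xx i) y
    unfold Par.mm
    rw [A.grow_ex (hA.hc j)]
    simp only [A.grow_xx, Int.cast_zero, zero_smul, zero_add]

omit hA in
/-- the row of `(1 - f) (1 - 1/f)` -/
theorem grow_fac {d : ℕ} {f : (Fin d → ℝ) → ℂ} (hf : Good f) (ho : Good (om f))
    (y : Fin (d + 1) → ℝ) : grow (fun p => (1 - f p) * (1 - (f p)⁻¹)) y =
      (2 : ℂ) • grow (om f) y - grow f y := by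
  have e : (fun p => (1 - f p) * (1 - (f p)⁻¹)) =
      fun p => ((-1 : ℂ) * (om f p * om f p)) * (f p)⁻¹ := by
    funext p
    have := hf.ne_zero p
    unfold om
    field_simp
    ring
  rw [e, grow_mul ((good_const (by norm_num)).mul (ho.mul ho)) (good_inv hf),
    grow_mul (good_const (by norm_num)) (ho.mul ho), grow_mul ho ho,
    grow_const_one (by simp), grow_inv hf]
  module

theorem Par.Ok.good_om_M (j : Fin (r + 1)) : Good (om (A.M j)) :=
  ⟨contDiff_om (hA.good_M j).smooth, hA.om_M j⟩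

theorem Par.Ok.grow_TT_eq (y : Fin (k + 3) → ℝ) : grow A.TT y =
    ∑ j, (A.nn j : ℂ) • ((2 : ℂ) • grow (om (A.M j)) y - grow (A.M j) y) := by
  have hT : A.TT = fun p => ((1 - A.yy p) * (1 - (A.yy p)⁻¹)) * A.cc p :=
    funext fun p => (hA.eqn p).symm
  have hfy : Good fun p => (1 - A.yy p) * (1 - (A.yy p)⁻¹) :=
    ⟨(contDiff_const.sub hA.good_yy.smooth).mul (contDiff_const.sub
      (good_inv hA.good_yy).smooth), fun p h => by
        have h1 := hA.eqn p
        rw [h, zero_mul] at h1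
        exact good_TT.ne_zero p h1.symm⟩
  rw [hT, grow_mul hfy hA.good_cc, Fin.sum_univ_succ, grow_fac hA.good_yy (hA.good_om_M 0)]
  have h1 : grow A.cc y = ∑ j, (A.n j : ℂ) • ((2 : ℂ) • grow (om (A.mm j)) y -
      grow (A.mm j) y) := by
    unfold Par.cc
    rw [grow_prod Finset.univ (fun j p => ((1 - A.mm j p) * (1 - (A.mm j p)⁻¹)) ^ A.n j)
      hA.good_fac]
    refine Finset.sum_congr rfl fun j _ => ?_
    rw [← grow_fac (hA.good_mm j) (hA.good_om_mm j)]
    exact grow_pow ((hA.good_om_mm j).mul (hA.good_om_inv j)) _ _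
  rw [h1]
  congr 1
  show _ = ((1 : ℕ) : ℂ) • ((2 : ℂ) • grow (om (A.M 0)) y - grow (A.M 0) y)
  rw [Nat.cast_one, one_smul]
  rfl

theorem Par.Ok.grow_G (y : Fin (k + 3) → ℝ) : ∑ j, (A.nn j : ℂ) • grow (om (A.M j)) y =
    (1 / 2 : ℂ) • grow A.TT y +
      ∑ s, ((1 / 2 : ℂ) * ∑ j, (A.nn j : ℂ) * (A.vv j s : ℂ)) • grow (A.X s) y := by
  have h1 : ∑ s, ((1 / 2 : ℂ) * ∑ j, (A.nn j : ℂ) * (A.vv j s : ℂ)) • grow (A.X s) y =
      (1 / 2 : ℂ) • ∑ j, (A.nn j : ℂ) • grow (A.M j) y := by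
    simp only [hA.grow_M, Finset.smul_sum, smul_smul]
    rw [Finset.sum_comm]
    refine Finset.sum_congr rfl fun s _ => ?_
    rw [← Finset.sum_smul, Finset.mul_sum]
  rw [h1, hA.grow_TT_eq, ← smul_add, ← Finset.sum_add_distrib, Finset.smul_sum]
  refine Finset.sum_congr rfl fun j _ => ?_
  module

omit hA in
theorem Par.vv_ne (hA : A.Ok) (j : Fin (r + 1)) : ∑ s, A.vv j s ^ 2 ≠ 0 := by
  intro h
  rw [Finset.sum_eq_zero_iff_of_nonneg fun s _ => sq_nonneg _] at h
  have h' : ∀ s, A.vv j s = 0 := fun s => by simpa using h s (Finset.mem_univ s)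
  revert h'
  refine Fin.cases ?_ (fun j => ?_) j
  · intro h'
    have := h' 0
    change (Pi.single 0 1 : Fin (k + 2) → ℤ) 0 = 0 at this
    rw [Pi.single_eq_same] at this
    exact one_ne_zero this
  · intro h'
    apply hA.hq j
    refine Finset.sum_eq_zero fun l _ => ?_
    have : A.v j l = 0 := h' l.succ
    rw [this, zero_mul]

/-- the pointwise formula -/
theorem Par.Ok.sum_det (y : Fin (k + 3) → ℝ) :
    ∑ j, ((A.nn j : ℂ) / ((∑ s, A.vv j s ^ 2 : ℤ) : ℂ)) * ∑ s : Fin (k + 2),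
      ((-1) ^ (s : ℕ) * (A.vv j s : ℂ)) *
        (Matrix.of (rws (A.M j) (fun l => A.X (s.succAbove l)) y)).det =
      (1 / 2 : ℂ) * (Complex.I * ((-(A.κ * (Real.pi * Real.sin (Real.pi * y 1))) : ℝ) : ℂ) *
        (2 * Real.pi * Complex.I) ^ (k + 1)) * A.Lam (grow A.yy y) := by
  have h1 := star_sum (m := k + 1) (Matrix.detRowAlternating (R := ℂ) (n := Fin (k + 3))) A.nn A.vv
    (fun s => grow (A.X s) y) (fun j => grow (A.M j) y) (fun j => grow (om (A.M j)) y)
    (grow A.TT y) (fun j => hA.grow_M j y) (hA.grow_G y) (Par.vv_ne hA)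
  have h2 : (Matrix.detRowAlternating (R := ℂ) (n := Fin (k + 3)))
      (Fin.cons (grow A.TT y) (fun s => grow (A.X s) y) : Fin (k + 3) → Fin (k + 3) → ℂ) =
      -((Complex.I * ((-(A.κ * (Real.pi * Real.sin (Real.pi * y 1))) : ℝ) : ℂ)) *
        (2 * Real.pi * Complex.I) ^ (k + 1)) * A.Lam (grow A.yy y) := by
    rw [A.grow_TT]
    have h3 := det_rows (k := k)
      (Complex.I * ((-(A.κ * (Real.pi * Real.sin (Real.pi * y 1))) : ℝ) : ℂ))
      (2 * Real.pi * Complex.I) two_pi_I_ne (fun l => ((-(A.h * A.q l) : ℝ) : ℂ)) (grow A.yy y)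
    have h4 : (fun s => grow (A.X s) y) = (Fin.cons (grow A.yy y) (fun l =>
        ((-(A.h * A.q l) : ℝ) : ℂ) • Pi.single 0 1 +
        Pi.single l.succ.succ (2 * Real.pi * Complex.I)) : Fin (k + 2) → Fin (k + 3) → ℂ) := by
      funext s
      refine Fin.cases ?_ (fun l => ?_) s
      · rfl
      · exact A.grow_xx l y
    rw [h4]
    exact h3
  rw [h2] at h1
  refine Eq.trans ?_ (h1.trans ?_)
  · rfl
  · ring

/-- the pointwise formula, real parts -/
theorem Par.Ok.sum_det_re (y : Fin (k + 3) → ℝ) :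
    ((-Complex.I) ^ (k + 1) * Complex.I *
    ∑ j, ((A.nn j : ℂ) / ((∑ s, A.vv j s ^ 2 : ℤ) : ℂ)) * ∑ s : Fin (k + 2),
      ((-1) ^ (s : ℕ) * (A.vv j s : ℂ)) *
        (Matrix.of (rws (A.M j) (fun l => A.X (s.succAbove l)) y)).det).re =
      1 / 2 * (2 * Real.pi) ^ (k + 1) * (A.κ * Real.pi) *
        (Real.sin (Real.pi * y 1) * (A.Lam (grow A.yy y)).re) := by
  rw [hA.sum_det]
  have h5 : (-Complex.I) ^ (k + 1) * Complex.I ^ (k + 1) = 1 := by
    rw [← mul_pow]
    simp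
  have h6 : (-Complex.I) ^ (k + 1) * Complex.I * ((1 / 2 : ℂ) * (Complex.I *
      ((-(A.κ * (Real.pi * Real.sin (Real.pi * y 1))) : ℝ) : ℂ) *
        (2 * Real.pi * Complex.I) ^ (k + 1)) * A.Lam (grow A.yy y)) =
      ((1 / 2 * (2 * Real.pi) ^ (k + 1) * (A.κ * Real.pi) * Real.sin (Real.pi * y 1) : ℝ) : ℂ) *
        A.Lam (grow A.yy y) := by
    push_cast
    rw [mul_pow]
    have h7 : Complex.I * Complex.I = -1 := Complex.I_mul_I
    linear_combination ((1 / 2 : ℂ) * (2 * Real.pi) ^ (k + 1) * (A.κ * Real.pi) *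
      Complex.sin (Real.pi * y 1) * A.Lam (grow A.yy y)) * h5 +
      ((-Complex.I) ^ (k + 1) * Complex.I ^ (k + 1)) * (-(1 / 2 : ℂ) * (2 * Real.pi) ^ (k + 1) *
        (A.κ * Real.pi) * Complex.sin (Real.pi * y 1) * A.Lam (grow A.yy y)) * h7
  rw [h6, Complex.re_ofReal_mul]
  ring

end ok

end Pool.Agent.Helper90.HT
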